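import Pool.Agent.R847.QM.Stm

/-!
# QM-ALG: polynomials vanishing on infinitely many fibres
-/

set_option autoImplicit false

namespace Pool.Agent.R847.QM

open Matrix

theorem alg_symm {R : Type} [CommRing R] {N : ℕ} {M : Matrix (Fin N) (Fin N) R} (hM : M.IsSymm)
    (x y : Fin N → R) : y ⬝ᵥ M.mulVec x = x ⬝ᵥ M.mulVec y := by
  rw [dotProduct_mulVec, ← mulVec_transpose, hM.eq, dotProduct_comm]

theorem alg_add {R : Type} [CommRing R] {N : ℕ} {M : Matrix (Fin N) (Fin N) R} (hM : M.IsSymm)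
    (x y : Fin N → R) (s : R) :
    qv M (x + s • y) = qv M x + 2 * s * (x ⬝ᵥ M.mulVec y) + s ^ 2 * qv M y := by
  unfold qv
  rw [mulVec_add, mulVec_smul, add_dotProduct, dotProduct_add, dotProduct_add, smul_dotProduct,
    dotProduct_smul, smul_dotProduct, dotProduct_smul, alg_symm hM x y]
  simp only [smul_eq_mul]
  ring

/-- A nonzero symmetric matrix has a vector which is not isotropic. -/
theorem alg_ex {N : ℕ} {M : Matrix (Fin N) (Fin N) ℚ} (hM : M.IsSymm) (h0 : M ≠ 0) :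
    ∃ e : Fin N → ℚ, qv M e ≠ 0 := by
  by_contra hc
  push Not at hc
  apply h0
  ext i j
  have h1 := alg_add hM (Pi.single i 1) (Pi.single j 1) 1
  rw [hc, hc, hc] at h1
  have h2 : (Pi.single i 1 : Fin N → ℚ) ⬝ᵥ M.mulVec (Pi.single j 1) = M i j := by
    simp
  rw [h2] at h1
  have h3 : M i j = 0 := by linarith
  rw [h3]
  rfl

theorem alg_map {R S : Type} [CommRing R] [CommRing S] (φ : R →+* S) {N : ℕ}
    (M : Matrix (Fin N) (Fin N) R) (x y : Fin N → R) :
    φ (x ⬝ᵥ M.mulVec y) = (fun i => φ (x i)) ⬝ᵥ (M.map φ).mulVec (fun i => φ (y i)) := by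
  simp only [dotProduct, mulVec, map_sum, map_mul, Matrix.map_apply]

/-- Division by a quadratic polynomial. -/
theorem alg_div {R : Type} [CommRing R] (a b c : R) (G : Polynomial R) :
    ∃ (k : ℕ) (Q : Polynomial R) (r0 r1 : R), Polynomial.C a ^ k * G =
      Q * (Polynomial.C a * Polynomial.X ^ 2 + Polynomial.C (2 * b) * Polynomial.X +
        Polynomial.C c) + Polynomial.C r0 + Polynomial.C r1 * Polynomial.X := by
  induction G using Polynomial.induction_on with
  | C r => exact ⟨0, 0, r, 0, by simp⟩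
  | add p q hp hq =>
    obtain ⟨k, Q, r0, r1, h⟩ := hp
    obtain ⟨k', Q', r0', r1', h'⟩ := hq
    refine ⟨k + k', Polynomial.C a ^ k' * Q + Polynomial.C a ^ k * Q',
      a ^ k' * r0 + a ^ k * r0', a ^ k' * r1 + a ^ k * r1', ?_⟩
    simp only [map_add, map_mul, map_pow]
    simp only [map_mul] at h h'
    linear_combination (Polynomial.C a ^ k') * h + (Polynomial.C a ^ k) * h'
  | monomial n r h =>
    obtain ⟨k, Q, r0, r1, h⟩ := h
    refine ⟨k + 1, Polynomial.C a * Polynomial.X * Q + Polynomial.C r1, - (c * r1),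
      a * r0 - 2 * b * r1, ?_⟩
    simp only [map_sub, map_mul, map_neg]
    simp only [map_mul] at h
    linear_combination (Polynomial.C a * Polynomial.X) * h

theorem alg_iota {N : ℕ} (t : ℚ) (y : Fin N → ℚ) (p : Polynomial ℚ) :
    MvPolynomial.eval (Fin.cons t y : Fin (N + 1) → ℚ)
      (Polynomial.aeval (MvPolynomial.X 0 : MvPolynomial (Fin (N + 1)) ℚ) p) =
        Polynomial.eval t p := by
  rw [Polynomial.aeval_def, Polynomial.hom_eval₂]
  have h1 : (MvPolynomial.eval (Fin.cons t y : Fin (N + 1) → ℚ)).comp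
      (algebraMap ℚ (MvPolynomial (Fin (N + 1)) ℚ)) = RingHom.id ℚ := Subsingleton.elim _ _
  rw [h1, MvPolynomial.eval_X, Fin.cons_zero, Polynomial.eval₂_id]

theorem alg_ (hC : S_CONE) : S_ALG := by
  intro N hN A hA f hT t1 v1 hA1 hv1
  have hsym : ∀ t, (Aat A t).IsSymm := fun t => by
    unfold Aat
    exact hA.map _
  obtain ⟨e, he⟩ := alg_ex (hsym t1) hA1
  obtain ⟨Am, hAm⟩ : ∃ Am : Matrix (Fin N) (Fin N) (MvPolynomial (Fin (N + 1)) ℚ),
    Am = A.map (fun p => Polynomial.aeval (MvPolynomial.X 0 : MvPolynomial (Fin (N + 1)) ℚ) p) :=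
      ⟨_, rfl⟩
  obtain ⟨ev, hev⟩ : ∃ ev : Fin N → MvPolynomial (Fin (N + 1)) ℚ,
    ev = fun i => MvPolynomial.C (e i) := ⟨_, rfl⟩
  obtain ⟨Y, hY⟩ : ∃ Y : Fin N → MvPolynomial (Fin (N + 1)) ℚ,
    Y = fun i => MvPolynomial.X i.succ := ⟨_, rfl⟩
  obtain ⟨g, hg⟩ : ∃ g : Fin (N + 1) → Polynomial (MvPolynomial (Fin (N + 1)) ℚ),
    g = Fin.cons (Polynomial.C (MvPolynomial.X 0)) (fun i =>
      Polynomial.C (Y i) + Polynomial.X * Polynomial.C (ev i)) := ⟨_, rfl⟩
  obtain ⟨a, ha⟩ : ∃ a, a = ev ⬝ᵥ Am.mulVec ev := ⟨_, rfl⟩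
  obtain ⟨b, hb⟩ : ∃ b, b = Y ⬝ᵥ Am.mulVec ev := ⟨_, rfl⟩
  obtain ⟨c, hc⟩ : ∃ c, c = Y ⬝ᵥ Am.mulVec Y := ⟨_, rfl⟩
  obtain ⟨k, Q, r0, r1, hdiv⟩ := alg_div a b c (MvPolynomial.aeval g f)
  -- evaluation
  have hAmap : ∀ (t : ℚ) (y : Fin N → ℚ),
      Am.map (MvPolynomial.eval (Fin.cons t y : Fin (N + 1) → ℚ)) = Aat A t := by
    intro t y
    ext i j
    rw [hAm, Matrix.map_apply, Matrix.map_apply, alg_iota]
    rfl
  have hevm : ∀ (t : ℚ) (y : Fin N → ℚ),
      (fun i => MvPolynomial.eval (Fin.cons t y : Fin (N + 1) → ℚ) (ev i)) = e := by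
    intro t y
    funext i
    rw [hev, MvPolynomial.eval_C]
  have hYm : ∀ (t : ℚ) (y : Fin N → ℚ),
      (fun i => MvPolynomial.eval (Fin.cons t y : Fin (N + 1) → ℚ) (Y i)) = y := by
    intro t y
    funext i
    rw [hY, MvPolynomial.eval_X, Fin.cons_succ]
  have key : ∀ (t : ℚ) (y : Fin N → ℚ) (s : ℚ), ∃ q : ℚ, (qv (Aat A t) e) ^ k *
      MvPolynomial.eval (Fin.cons t (y + s • e) : Fin (N + 1) → ℚ) f =
        q * qv (Aat A t) (y + s • e) +
          MvPolynomial.eval (Fin.cons t y : Fin (N + 1) → ℚ) r0 +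
          MvPolynomial.eval (Fin.cons t y : Fin (N + 1) → ℚ) r1 * s := by
    intro t y s
    obtain ⟨Φ, hΦ⟩ : ∃ Φ : Polynomial (MvPolynomial (Fin (N + 1)) ℚ) →+* ℚ,
      Φ = Polynomial.eval₂RingHom (MvPolynomial.eval (Fin.cons t y : Fin (N + 1) → ℚ)) s :=
        ⟨_, rfl⟩
    have hΦC : ∀ r, Φ (Polynomial.C r) =
        MvPolynomial.eval (Fin.cons t y : Fin (N + 1) → ℚ) r := by
      intro r
      rw [hΦ, Polynomial.coe_eval₂RingHom, Polynomial.eval₂_C]
    have hΦX : Φ Polynomial.X = s := by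
      rw [hΦ, Polynomial.coe_eval₂RingHom, Polynomial.eval₂_X]
    have hG : Φ (MvPolynomial.aeval g f) =
        MvPolynomial.eval (Fin.cons t (y + s • e) : Fin (N + 1) → ℚ) f := by
      rw [MvPolynomial.map_aeval]
      have h1 : Φ.comp (algebraMap ℚ (Polynomial (MvPolynomial (Fin (N + 1)) ℚ))) =
        RingHom.id ℚ := Subsingleton.elim _ _
      have h2 : (fun i => Φ (g i)) = (Fin.cons t (y + s • e) : Fin (N + 1) → ℚ) := by
        funext i
        rw [hg]
        refine Fin.cases ?_ (fun i => ?_) i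
        · rw [Fin.cons_zero, Fin.cons_zero, hΦC, MvPolynomial.eval_X, Fin.cons_zero]
        · rw [Fin.cons_succ, Fin.cons_succ, map_add, map_mul, hΦC, hΦC, hΦX, Pi.add_apply,
            Pi.smul_apply, smul_eq_mul]
          have h3 := congrFun (hevm t y) i
          have h4 := congrFun (hYm t y) i
          rw [h3, h4]
      rw [h1, h2]
      rfl
    have h1 := congrArg Φ hdiv
    have ha' : MvPolynomial.eval (Fin.cons t y : Fin (N + 1) → ℚ) a =
        e ⬝ᵥ (Aat A t).mulVec e := by rw [ha, alg_map, hAmap, hevm]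
    have hb' : MvPolynomial.eval (Fin.cons t y : Fin (N + 1) → ℚ) b =
        y ⬝ᵥ (Aat A t).mulVec e := by rw [hb, alg_map, hAmap, hevm, hYm]
    have hc' : MvPolynomial.eval (Fin.cons t y : Fin (N + 1) → ℚ) c =
        y ⬝ᵥ (Aat A t).mulVec y := by rw [hc, alg_map, hAmap, hYm]
    simp only [map_mul, map_pow, map_add, hΦC, hΦX, hG, ha', hb', hc'] at h1
    refine ⟨Φ Q, ?_⟩
    rw [alg_add (hsym t)]
    unfold qv
    rw [h1]
    have h2 : MvPolynomial.eval (Fin.cons t y : Fin (N + 1) → ℚ)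
        (2 : MvPolynomial (Fin (N + 1)) ℚ) = 2 := map_ofNat _ 2
    rw [h2]
    ring
  -- the polynomial `r0` vanishes on infinitely many fibres
  have hT' : ({t : ℚ | (Aat A t).det ≠ 0 ∧ (∃ w : Fin N → ℚ, w ≠ 0 ∧ qv (Aat A t) w = 0) ∧
      ∀ v : Fin N → ℚ, qv (Aat A t) v = 0 →
        MvPolynomial.eval (Fin.cons t v : Fin (N + 1) → ℚ) f = 0} \
          {t : ℚ | qv (Aat A t) e = 0}).Infinite := by
    refine hT.sdiff ?_
    obtain ⟨α, hα⟩ : ∃ α : Polynomial ℚ, α = (fun i => Polynomial.C (e i)) ⬝ᵥ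
      A.mulVec (fun i => Polynomial.C (e i)) := ⟨_, rfl⟩
    have h1 : ∀ t, α.eval t = qv (Aat A t) e := by
      intro t
      have h2 := alg_map (Polynomial.evalRingHom t) A (fun i => Polynomial.C (e i))
        (fun i => Polynomial.C (e i))
      rw [hα, ← Polynomial.coe_evalRingHom, h2]
      unfold qv Aat
      simp only [Polynomial.coe_evalRingHom, Polynomial.eval_C]
    have h0 : α ≠ 0 := by
      rintro rfl
      apply he
      rw [← h1, Polynomial.eval_zero]
    refine (α.roots.toFinset.finite_toSet).subset ?_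
    intro t ht
    rw [Finset.mem_coe, Multiset.mem_toFinset, Polynomial.mem_roots h0]
    change α.eval t = 0
    rw [h1]
    exact ht
  have hr0 : MvPolynomial.eval (Fin.cons t1 v1 : Fin (N + 1) → ℚ) r0 = 0 := by
    obtain ⟨p, hp⟩ : ∃ p : Polynomial ℚ, p = MvPolynomial.aeval
      (Fin.cons Polynomial.X (fun i => Polynomial.C (v1 i)) : Fin (N + 1) → Polynomial ℚ) r0 :=
        ⟨_, rfl⟩
    have h1 : ∀ t, p.eval t = MvPolynomial.eval (Fin.cons t v1 : Fin (N + 1) → ℚ) r0 := by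
      intro t
      rw [hp, ← Polynomial.coe_evalRingHom, MvPolynomial.map_aeval]
      have h2 : (Polynomial.evalRingHom t).comp (algebraMap ℚ (Polynomial ℚ)) =
        RingHom.id ℚ := Subsingleton.elim _ _
      have h3 : (fun i => Polynomial.evalRingHom t ((Fin.cons Polynomial.X
          (fun i => Polynomial.C (v1 i)) : Fin (N + 1) → Polynomial ℚ) i)) =
          (Fin.cons t v1 : Fin (N + 1) → ℚ) := by
        funext i
        refine Fin.cases ?_ (fun i => ?_) i
        · rw [Fin.cons_zero, Fin.cons_zero, Polynomial.coe_evalRingHom, Polynomial.eval_X]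
        · rw [Fin.cons_succ, Fin.cons_succ, Polynomial.coe_evalRingHom, Polynomial.eval_C]
      rw [h2, h3]
      rfl
    have h2 : p = 0 := by
      refine Polynomial.eq_zero_of_infinite_isRoot p (hT'.mono ?_)
      rintro t ⟨⟨hdet, hw, hf⟩, hq⟩
      have hq' : qv (Aat A t) e ≠ 0 := hq
      change p.eval t = 0
      rw [h1]
      -- the polynomial on the fibre
      obtain ⟨h0, hh0⟩ : ∃ h0 : MvPolynomial (Fin N) ℚ, h0 = MvPolynomial.aeval
        (Fin.cons (MvPolynomial.C t) MvPolynomial.X : Fin (N + 1) → MvPolynomial (Fin N) ℚ) r0 :=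
          ⟨_, rfl⟩
      have h3 : ∀ y : Fin N → ℚ, MvPolynomial.eval y h0 =
          MvPolynomial.eval (Fin.cons t y : Fin (N + 1) → ℚ) r0 := by
        intro y
        rw [hh0, MvPolynomial.map_aeval]
        have h4 : (MvPolynomial.eval y).comp (algebraMap ℚ (MvPolynomial (Fin N) ℚ)) =
          RingHom.id ℚ := Subsingleton.elim _ _
        have h5 : (fun i => MvPolynomial.eval y ((Fin.cons (MvPolynomial.C t)
            MvPolynomial.X : Fin (N + 1) → MvPolynomial (Fin N) ℚ) i)) =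
            (Fin.cons t y : Fin (N + 1) → ℚ) := by
          funext i
          refine Fin.cases ?_ (fun i => ?_) i
          · rw [Fin.cons_zero, Fin.cons_zero, MvPolynomial.eval_C]
          · rw [Fin.cons_succ, Fin.cons_succ, MvPolynomial.eval_X]
        rw [h4, h5]
        rfl
      have h4 : h0 = 0 := by
        refine hC N hN (Aat A t) (hsym t) hdet hw e hq' h0 ?_
        intro v s hv hB
        rw [h3]
        obtain ⟨q1, h5⟩ := key t (v + s • e) (-s)
        obtain ⟨q2, h6⟩ := key t (v + s • e)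
          (-s - 2 * (v ⬝ᵥ (Aat A t).mulVec e) / qv (Aat A t) e)
        have e1 : v + s • e + (-s) • e = v := by
          rw [neg_smul, add_neg_cancel_right]
        have e2 : v + s • e + (-s - 2 * (v ⬝ᵥ (Aat A t).mulVec e) / qv (Aat A t) e) • e =
            v + (-(2 * (v ⬝ᵥ (Aat A t).mulVec e) / qv (Aat A t) e)) • e := by
          rw [add_assoc, ← add_smul]
          congr 2
          ring
        have e3 : qv (Aat A t)
            (v + (-(2 * (v ⬝ᵥ (Aat A t).mulVec e) / qv (Aat A t) e)) • e) = 0 := by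
          rw [alg_add (hsym t), hv]
          field_simp
          ring
        rw [e1, hv, hf v hv, mul_zero, mul_zero, zero_add] at h5
        rw [e2, e3, hf _ e3, mul_zero, mul_zero, zero_add] at h6
        have h7 : MvPolynomial.eval (Fin.cons t (v + s • e) : Fin (N + 1) → ℚ) r1 *
            (2 * (v ⬝ᵥ (Aat A t).mulVec e) / qv (Aat A t) e) = 0 := by
          linear_combination h6 - h5
        have h8 : 2 * (v ⬝ᵥ (Aat A t).mulVec e) / qv (Aat A t) e ≠ 0 :=
          div_ne_zero (mul_ne_zero two_ne_zero hB) hq'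
        have h9 := (mul_eq_zero.1 h7).resolve_right h8
        rw [h9, zero_mul, add_zero] at h5
        exact h5.symm
      rw [← h3, h4, map_zero]
    rw [← h1, h2, Polynomial.eval_zero]
  obtain ⟨q, h1⟩ := key t1 v1 0
  rw [zero_smul, add_zero, hv1, hr0, mul_zero, mul_zero, add_zero, add_zero] at h1
  exact (mul_eq_zero.1 h1).resolve_left (pow_ne_zero _ he)

end Pool.Agent.R847.QM
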