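import Pool.Agent.R847.QM.Stm
import Pool.Agent.R847.QB.Stm
import Pool.Agent.TH729.CV.Iso
import Pool.Agent.Y720.MZ.Fib
import Pool.Agent.Y720.MZ.PF

/-!
# Local Zariski closures for one-parameter families of quadrics (project QM, helper847)
-/

set_option autoImplicit false

namespace Pool.Agent.R847.QM

open Matrix Topology Filter
open Pool.Agent.TH729.CV (IA mem_IA FA)
open Pool.Agent.Y720.MZ (FAon mem_IA_iff VI mem_VI fin_abstract IA_congr)
open Pool.Agent.R847.QB (S_MAT)

variable {N : ℕ}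

/-- the rational points of the affine chart -/
def Sall (A : Matrix (Fin N) (Fin N) (Polynomial ℚ)) : Set (Fin (N + 1) → ℚ) :=
  {y | qv (Aat A (y 0)) (fun i => y i.succ) = 0}

/-- the points on smooth fibres -/
def GA (A : Matrix (Fin N) (Fin N) (Polynomial ℚ)) : Set (Fin (N + 1) → ℚ) :=
  {y | qv (Aat A (y 0)) (fun i => y i.succ) = 0 ∧ (Aat A (y 0)).det ≠ 0 ∧
    (fun i : Fin N => y i.succ) ≠ 0}

/-- the fibre over a point -/
def FB (A : Matrix (Fin N) (Fin N) (Polynomial ℚ)) (t : ℚ) : Set (Fin (N + 1) → ℚ) :=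
  {y | y 0 = t ∧ qv (Aat A t) (fun i => y i.succ) = 0}

lemma det_Aat (A : Matrix (Fin N) (Fin N) (Polynomial ℚ)) (t : ℚ) :
    (Aat A t).det = A.det.eval t := by
  have := (Polynomial.evalRingHom t).map_det A
  rw [Polynomial.coe_evalRingHom] at this
  rw [this]
  rfl

lemma map_qv {R S : Type} [CommRing R] [CommRing S] (φ : R →+* S) (M : Matrix (Fin N) (Fin N) R)
    (v : Fin N → R) : qv (M.map φ) (fun i => φ (v i)) = φ (qv M v) := by
  unfold qv
  simp only [dotProduct, mulVec, map_sum, map_mul, Matrix.map_apply]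

lemma Aat_map {S : Type} [CommRing S] (σ : ℚ →+* S) (A : Matrix (Fin N) (Fin N) (Polynomial ℚ))
    (t : ℚ) : A.map (fun p => p.eval₂ σ (σ t)) = (Aat A t).map σ := by
  ext i j
  simp only [Aat, Matrix.map_apply, Polynomial.eval₂_at_apply]

lemma near_iso (hLIFT : S_LIFT) {L : Type} [NontriviallyNormedField L] [CompleteSpace L]
    [CharZero L] (σ : ℚ →+* L) (A : Matrix (Fin N) (Fin N) (Polynomial ℚ)) (hA : A.IsSymm)
    (t₀ : ℚ) (v₀ : Fin N → ℚ) (hdet : (Aat A t₀).det ≠ 0) (hv₀ : v₀ ≠ 0)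
    (hq : qv (Aat A t₀) v₀ = 0) (U : Set (Fin N → L)) (hU : U ∈ 𝓝 (fun i => σ (v₀ i))) :
    {t : L | ∃ y' ∈ U, y' ≠ 0 ∧ qv (A.map (fun p => p.eval₂ σ t)) y' = 0} ∈ 𝓝 (σ t₀) := by
  have hsymm : ((Aat A t₀).map σ).IsSymm := (hA.map _).map _
  have h1 : qv ((Aat A t₀).map σ) (fun i => σ (v₀ i)) = 0 := by
    rw [map_qv, hq, map_zero]
  have h2 : ((Aat A t₀).map σ).mulVec (fun i => σ (v₀ i)) ≠ 0 := by
    intro h
    apply hv₀
    apply Matrix.eq_zero_of_mulVec_eq_zero hdet
    funext i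
    have h3 := congrFun h i
    have h4 := RingHom.map_mulVec σ (Aat A t₀) v₀ i
    have h5 : σ (((Aat A t₀).mulVec v₀) i) = 0 := by
      rw [h4]
      exact h3
    exact (map_eq_zero σ).1 h5
  have hne : (fun i => σ (v₀ i)) ≠ (0 : Fin N → L) := by
    intro h
    rw [h, mulVec_zero] at h2
    exact h2 rfl
  have hU' : U ∩ {v | v ≠ 0} ∈ 𝓝 (fun i => σ (v₀ i)) :=
    inter_mem hU (isOpen_ne.mem_nhds hne)
  have h3 := hLIFT L N ((Aat A t₀).map σ) hsymm (fun i => σ (v₀ i)) h1 h2 _ hU'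
  have hcont : Continuous fun t : L => A.map (fun p => p.eval₂ σ t) := by
    refine continuous_matrix fun i j => ?_
    simp only [Matrix.map_apply]
    exact Polynomial.continuous_eval₂ _ _
  rw [← Aat_map] at h3
  have h4 := hcont.continuousAt.eventually h3
  filter_upwards [h4] with t ht
  obtain ⟨y', hy', hy0⟩ := ht (hA.map _)
  exact ⟨y', hy'.1, hy'.2, hy0⟩

theorem core (hNEAR : S_NEAR) (hLIFT : S_LIFT) (hGLOB : S_GLOB) (hALG : S_ALG) (hMAT : S_MAT)
    {L : Type} [NontriviallyNormedField L] [CompleteSpace L] [CharZero L] (σ : ℚ →+* L)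
    (hσ : DenseRange σ) (hN : 5 ≤ N) (A : Matrix (Fin N) (Fin N) (Polynomial ℚ)) (hA : A.IsSymm)
    (y : Fin (N + 1) → ℚ) (hy : y ∈ GA A) (f : MvPolynomial (Fin (N + 1)) ℚ)
    (hf : f ∈ IA σ (GA A) (fun i => σ (y i))) : f ∈ VI (GA A) := by
  obtain ⟨hq, hdet, hne⟩ := hy
  obtain ⟨U, hU, hfU⟩ := mem_IA_iff.1 hf
  -- product neighbourhood
  have hcont : Continuous fun p : L × (Fin N → L) => (Fin.cons p.1 p.2 : Fin (N + 1) → L) := by
    refine continuous_pi fun i => ?_
    refine Fin.cases ?_ (fun j => ?_) i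
    · simpa using continuous_fst
    · simp only [Fin.cons_succ]
      exact (continuous_apply j).comp continuous_snd
  have e1 : (Fin.cons (σ (y 0)) (fun i : Fin N => σ (y i.succ)) : Fin (N + 1) → L) =
      fun i => σ (y i) := by
    funext i
    refine Fin.cases ?_ (fun j => ?_) i <;> simp
  have h1 : (fun p : L × (Fin N → L) => (Fin.cons p.1 p.2 : Fin (N + 1) → L)) ⁻¹' U ∈
      𝓝 (σ (y 0), fun i : Fin N => σ (y i.succ)) := by
    apply hcont.continuousAt.preimage_mem_nhds
    show U ∈ 𝓝 (Fin.cons (σ (y 0)) (fun i : Fin N => σ (y i.succ)) : Fin (N + 1) → L)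
    rw [e1]
    exact hU
  obtain ⟨U₁, U₂, hU₁, hy₁, hU₂, hy₂, hUU⟩ := mem_nhds_prod_iff'.1 h1
  have hneL : (fun i : Fin N => σ (y i.succ)) ≠ (0 : Fin N → L) := by
    intro h
    apply hne
    funext i
    exact (map_eq_zero σ).1 (congrFun h i)
  have hU₂' : IsOpen (U₂ ∩ {v : Fin N → L | v ≠ 0}) := hU₂.inter isOpen_ne
  -- good parameters
  have hL := near_iso hLIFT σ A hA (y 0) (fun i => y i.succ) hdet hne hq
    (U₂ ∩ {v : Fin N → L | v ≠ 0}) (hU₂'.mem_nhds ⟨hy₂, hneL⟩)
  have hR := near_iso hLIFT (algebraMap ℚ ℝ) A hA (y 0) (fun i => y i.succ) hdet hne hq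
    Set.univ univ_mem
  have hR' : {t : ℝ | ∃ y' ∈ (Set.univ : Set (Fin N → ℝ)), y' ≠ 0 ∧
      qv (A.map (fun p => p.eval₂ (algebraMap ℚ ℝ) t)) y' = 0} ∈ 𝓝 ((y 0 : ℚ) : ℝ) := by
    rw [eq_ratCast] at hR
    exact hR
  have hinf := hNEAR L σ hσ (y 0) _ _ (inter_mem (hU₁.mem_nhds hy₁) hL) hR'
  have hA0 : A.det ≠ 0 := by
    intro h
    apply hdet
    rw [det_Aat, h, Polynomial.eval_zero]
  have hinf2 := hinf.sdiff (Polynomial.finite_setOfPred_isRoot hA0)
  have hgood := hALG N (by omega) A hA f (hinf2.mono ?_)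
  · intro y' hy'
    have h2 := hgood (y' 0) (fun i => y' i.succ) ?_ hy'.1
    · have e3 : (Fin.cons (y' 0) (fun i : Fin N => y' i.succ) : Fin (N + 1) → ℚ) = y' := by
        funext i
        refine Fin.cases ?_ (fun j => ?_) i <;> simp
      rwa [e3] at h2
    · intro h0
      apply hy'.2.1
      rw [h0]
      have : Nonempty (Fin N) := ⟨⟨0, by omega⟩⟩
      exact Matrix.det_zero
  · rintro t ⟨⟨⟨ht1, y', hy'U, hy'0, hy'q⟩, yr, -, hyr0, hyrq⟩, htd⟩
    have htd' : (Aat A t).det ≠ 0 := by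
      rw [det_Aat]
      exact htd
    have hsymm : (Aat A t).IsSymm := hA.map _
    rw [Aat_map] at hy'q
    have e4 : ((t : ℚ) : ℝ) = algebraMap ℚ ℝ t := (eq_ratCast _ _).symm
    rw [e4, Aat_map] at hyrq
    obtain ⟨w, hw0, hw⟩ := hMAT N hN (Aat A t) hsymm htd' ⟨yr, hyr0, hyrq⟩
    refine ⟨htd', ⟨w, hw0, hw⟩, ?_⟩
    -- the polynomial on the fibre
    set h : MvPolynomial (Fin N) ℚ :=
      MvPolynomial.aeval (Fin.cons (MvPolynomial.C t) (fun i => MvPolynomial.X i) :
        Fin (N + 1) → MvPolynomial (Fin N) ℚ) f with hh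
    have hev : ∀ v : Fin N → ℚ, MvPolynomial.eval v h =
        MvPolynomial.eval (Fin.cons t v : Fin (N + 1) → ℚ) f := by
      intro v
      have h1 : (MvPolynomial.aeval v : MvPolynomial (Fin N) ℚ →ₐ[ℚ] ℚ).comp
          (MvPolynomial.aeval (Fin.cons (MvPolynomial.C t) (fun i => MvPolynomial.X i) :
            Fin (N + 1) → MvPolynomial (Fin N) ℚ)) =
          MvPolynomial.aeval (Fin.cons t v : Fin (N + 1) → ℚ) := by
        apply MvPolynomial.algHom_ext
        intro i
        rw [AlgHom.comp_apply, MvPolynomial.aeval_X, MvPolynomial.aeval_X]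
        refine Fin.cases ?_ (fun j => ?_) i
        · simp
        · simp
      have h2 := DFunLike.congr_fun h1 f
      rw [AlgHom.comp_apply, MvPolynomial.aeval_eq_eval, MvPolynomial.aeval_eq_eval] at h2
      exact h2
    have h3 := hGLOB L σ hσ N (by omega) (Aat A t) hsymm htd' ⟨w, hw0, hw⟩ y' hy'0 hy'q
      (U₂ ∩ {v : Fin N → L | v ≠ 0}) (hU₂'.mem_nhds hy'U) h ?_
    · intro v hv
      rw [← hev]
      exact h3 v hv
    · intro v hv hvU
      rw [hev]
      apply hfU
      · refine ⟨?_, ?_, ?_⟩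
        · simpa using hv
        · simpa using htd'
        · intro h0
          apply hvU.2
          funext i
          have h5 := congrFun h0 i
          simp only [Fin.cons_succ, Pi.zero_apply] at h5
          show σ (v i) = 0
          rw [h5, map_zero]
      · have h6 := hUU (Set.mk_mem_prod ht1 hvU.1)
        have e5 : (fun i => σ ((Fin.cons t v : Fin (N + 1) → ℚ) i)) =
            (Fin.cons (σ t) (fun i => σ (v i)) : Fin (N + 1) → L) := by
          funext i
          refine Fin.cases ?_ (fun j => ?_) i <;> simp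
        rw [e5]
        exact h6

lemma fibre_FA {L : Type} [NontriviallyNormedField L] [CompleteSpace L] [CharZero L]
    [ProperSpace L] (σ : ℚ →+* L) (hσ : DenseRange σ)
    (A : Matrix (Fin N) (Fin N) (Polynomial ℚ)) (t : ℚ) : FA σ (FB A t) := by
  have h1 := FA.block σ hσ (f := (MvPolynomial.X 0 - MvPolynomial.C t : MvPolynomial (Fin (N + 1)) ℚ))
    (g := ∑ i : Fin N, ∑ j : Fin N, MvPolynomial.C (Aat A t i j) *
      (MvPolynomial.X i.succ * MvPolynomial.X j.succ)) (Or.inl ⟨?_, ?_⟩)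
  · convert h1 using 1
    ext y
    simp only [FB, Set.mem_ofPred_eq, map_sub, MvPolynomial.eval_X, MvPolynomial.eval_C,
      sub_eq_zero, map_sum, map_mul]
    refine and_congr Iff.rfl ?_
    have e : qv (Aat A t) (fun i => y i.succ) =
        ∑ i : Fin N, ∑ j : Fin N, Aat A t i j * (y i.succ * y j.succ) := by
      simp only [qv, dotProduct, mulVec, Finset.mul_sum]
      refine Finset.sum_congr rfl fun i _ => Finset.sum_congr rfl fun j _ => ?_
      ring
    rw [e]
  · refine (MvPolynomial.totalDegree_sub _ _).trans ?_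
    simp
  · refine MvPolynomial.totalDegree_finsetSum_le fun i _ =>
      MvPolynomial.totalDegree_finsetSum_le fun j _ => ?_
    refine (MvPolynomial.totalDegree_mul _ _).trans ?_
    rw [MvPolynomial.totalDegree_C, zero_add]
    refine (MvPolynomial.totalDegree_mul _ _).trans ?_
    rw [MvPolynomial.totalDegree_X, MvPolynomial.totalDegree_X]

theorem affine (hNEAR : S_NEAR) (hLIFT : S_LIFT) (hGLOB : S_GLOB) (hALG : S_ALG) (hMAT : S_MAT)
    {L : Type} [NontriviallyNormedField L] [CompleteSpace L] [CharZero L] [ProperSpace L]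
    (σ : ℚ →+* L) (hσ : DenseRange σ) (hN : 5 ≤ N) (A : Matrix (Fin N) (Fin N) (Polynomial ℚ))
    (hA : A.IsSymm) (hdet : A.det ≠ 0) :
    FAon σ (Sall A) {x : Fin (N + 1) → L | (fun i : Fin N => x i.succ) ≠ 0} := by
  have h1 : FAon σ (GA A) Set.univ := by
    refine fin_abstract (B := ∅) isOpen_univ (Set.empty_subset _) ?_ (FAon.empty _)
    intro y hy _ _ f hf
    exact core hNEAR hLIFT hGLOB hALG hMAT σ hσ hN A hA y hy f hf
  have hfin : {t : ℚ | A.det.IsRoot t}.Finite := Polynomial.finite_setOfPred_isRoot hdet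
  have h3 : FAon σ (⋃ t ∈ hfin.toFinset, FB A t) Set.univ :=
    FAon.biUnion _ fun t _ => Pool.Agent.Y720.MZ.FA.on (fibre_FA σ hσ A t) _
  have h4 := h1.union h3
  refine Set.Finite.subset h4 ?_
  rintro _ ⟨x, hx, rfl⟩
  refine ⟨x, Set.mem_univ _, ?_⟩
  have hopen : IsOpen {x : Fin (N + 1) → L | (fun i : Fin N => x i.succ) ≠ 0} := by
    have hc : Continuous fun x : Fin (N + 1) → L => fun i : Fin N => x i.succ :=
      continuous_pi fun i => continuous_apply _
    exact isOpen_ne.preimage hc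
  refine (IA_congr (hopen.mem_nhds hx) ?_).symm
  intro y hyU
  have hne : (fun i : Fin N => y i.succ) ≠ 0 := by
    intro h
    apply hyU
    funext i
    have := congrFun h i
    simp only [Pi.zero_apply] at this
    show σ (y i.succ) = 0
    rw [this, map_zero]
  constructor
  · intro hy
    by_cases hd : (Aat A (y 0)).det = 0
    · right
      rw [Set.mem_iUnion₂]
      refine ⟨y 0, ?_, rfl, hy⟩
      rw [Set.Finite.mem_toFinset, Set.mem_ofPred_eq, Polynomial.IsRoot.def, ← det_Aat]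
      exact hd
    · left
      exact ⟨hy, hd, hne⟩
  · rintro (hy | hy)
    · exact hy.1
    · rw [Set.mem_iUnion₂] at hy
      obtain ⟨t, -, ht, hy⟩ := hy
      change qv (Aat A (y 0)) (fun i => y i.succ) = 0
      rw [ht]
      exact hy

end Pool.Agent.R847.QM
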