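import Pool.Agent.R847.QM.Asm

/-!
# Bihomogeneous coordinates (project QM, helper847)
-/

set_option autoImplicit false

namespace Pool.Agent.R847.QM

open Matrix Topology Filter
open Pool.Agent.TH729.CV (IA mem_IA FA IA_stab)
open Pool.Agent.Y720.MZ (FAon mem_IA_iff VI mem_VI fin_abstract IA_congr infinite_near' PF1 PF LO)
open Pool.Agent.R847.QB (S_MAT)

variable {N d : ℕ}

/-- the coordinates of a point of the chart -/
def ch {R : Type} [Mul R] (i₀ : Fin 2) (b t : R) : Fin 2 → R := fun i => if i = i₀ then b else b * t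

/-- the matrix of a chart -/
noncomputable def AC (Q : Fin (d + 1) → Matrix (Fin N) (Fin N) ℚ) (i₀ : Fin 2) :
    Matrix (Fin N) (Fin N) (Polynomial ℚ) :=
  ∑ i : Fin (d + 1), (Polynomial.X : Polynomial ℚ) ^ (if i₀ = 0 then (i : ℕ) else d - i) •
    (Q i).map Polynomial.C

lemma AC_symm (Q : Fin (d + 1) → Matrix (Fin N) (Fin N) ℚ) (hQ : ∀ i, (Q i).IsSymm) (i₀ : Fin 2) :
    (AC Q i₀).IsSymm := by
  unfold AC Matrix.IsSymm
  rw [Matrix.transpose_sum]
  refine Finset.sum_congr rfl fun i _ => ?_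
  rw [Matrix.transpose_smul, ((hQ i).map Polynomial.C).eq]

lemma Aat_AC (Q : Fin (d + 1) → Matrix (Fin N) (Fin N) ℚ) (i₀ : Fin 2) (t : ℚ) :
    Aat (AC Q i₀) t = ∑ i : Fin (d + 1), t ^ (if i₀ = 0 then (i : ℕ) else d - i) • Q i := by
  ext j k
  simp only [Aat, AC, Matrix.map_apply, Matrix.sum_apply, Matrix.smul_apply, smul_eq_mul,
    Polynomial.eval_finsetSum, Polynomial.eval_mul, Polynomial.eval_pow, Polynomial.eval_X,
    Polynomial.eval_C]

lemma qv_sum {R : Type} [CommRing R] (c : Fin (d + 1) → R)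
    (Q : Fin (d + 1) → Matrix (Fin N) (Fin N) R) (Y : Fin N → R) :
    qv (∑ i, c i • Q i) Y = ∑ i, c i * qv (Q i) Y := by
  simp only [qv, Matrix.sum_mulVec, dotProduct_sum, Matrix.smul_mulVec, dotProduct_smul,
    smul_eq_mul]

lemma qv_smul {R : Type} [CommRing R] (c : R) (M : Matrix (Fin N) (Fin N) R) (Y : Fin N → R) :
    qv M (c • Y) = c ^ 2 * qv M Y := by
  simp only [qv, Matrix.mulVec_smul, dotProduct_smul, smul_dotProduct, smul_eq_mul]
  ring

/-- the bihomogeneous form -/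
def FF {R : Type} [CommRing R] (Q : Fin (d + 1) → Matrix (Fin N) (Fin N) R) (T : Fin 2 → R)
    (Y : Fin N → R) : R := ∑ i : Fin (d + 1), T 0 ^ (d - (i : ℕ)) * T 1 ^ (i : ℕ) * qv (Q i) Y

lemma pow_chart {b t : ℚ} (i : Fin (d + 1)) (i₀ : Fin 2) :
    (ch i₀ b t) 0 ^ (d - (i : ℕ)) * (ch i₀ b t) 1 ^ (i : ℕ) =
      b ^ d * t ^ (if i₀ = 0 then (i : ℕ) else d - i) := by
  have hi : (i : ℕ) ≤ d := Nat.lt_succ_iff.1 i.2
  have h1 : b ^ d = b ^ (d - (i : ℕ)) * b ^ (i : ℕ) := by
    rw [← pow_add]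
    congr 1
    omega
  rw [h1]
  fin_cases i₀
  · simp only [ch, Fin.zero_eta, Fin.isValue, if_true, one_ne_zero, if_false, mul_pow]
    ring
  · simp only [ch, Fin.mk_one, Fin.isValue, zero_ne_one, if_false, if_true, one_ne_zero, mul_pow]
    ring

lemma FF_ch (Q : Fin (d + 1) → Matrix (Fin N) (Fin N) ℚ) (i₀ : Fin 2) (b t : ℚ) (Y : Fin N → ℚ) :
    FF Q (ch i₀ b t) Y = b ^ d * qv (Aat (AC Q i₀) t) Y := by
  rw [Aat_AC, qv_sum, FF, Finset.mul_sum]
  refine Finset.sum_congr rfl fun i _ => ?_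
  rw [pow_chart, mul_assoc]

lemma eq_ch {T : Fin 2 → ℚ} {i₀ : Fin 2} (h : T i₀ ≠ 0) :
    T = ch i₀ (T i₀) (T (1 - i₀) / T i₀) := by
  funext i
  fin_cases i₀ <;> fin_cases i
  · simp [ch]
  · simp only [Fin.zero_eta, Fin.isValue] at h
    simp [ch]
    field_simp
  · simp only [Fin.mk_one, Fin.isValue] at h
    simp [ch]
    field_simp
  · simp [ch]

/-- substitution -/
noncomputable def sb (i₀ : Fin 2) (b : ℚ) :
    MvPolynomial (Fin N ⊕ Fin 2) ℚ →ₐ[ℚ] MvPolynomial (Fin (N + 1)) ℚ :=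
  MvPolynomial.aeval (Sum.elim (fun i => MvPolynomial.X i.succ)
    (ch i₀ (MvPolynomial.C b) (MvPolynomial.X 0)))

lemma eval_sb (i₀ : Fin 2) (b : ℚ) (f : MvPolynomial (Fin N ⊕ Fin 2) ℚ) (y : Fin (N + 1) → ℚ) :
    MvPolynomial.eval y (sb i₀ b f) =
      MvPolynomial.eval (Sum.elim (fun i => y i.succ) (ch i₀ b (y 0))) f := by
  have h1 : (MvPolynomial.aeval y : MvPolynomial (Fin (N + 1)) ℚ →ₐ[ℚ] ℚ).comp (sb i₀ b) =
      MvPolynomial.aeval (Sum.elim (fun i => y i.succ) (ch i₀ b (y 0))) := by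
    apply MvPolynomial.algHom_ext
    intro i
    rw [AlgHom.comp_apply, sb, MvPolynomial.aeval_X, MvPolynomial.aeval_X]
    rcases i with i | j
    · simp
    · simp only [Sum.elim_inr, ch]
      by_cases hj : j = i₀
      · rw [if_pos hj, if_pos hj]
        simp
      · rw [if_neg hj, if_neg hj]
        simp
  have h2 := DFunLike.congr_fun h1 f
  rw [AlgHom.comp_apply, MvPolynomial.aeval_eq_eval, MvPolynomial.aeval_eq_eval] at h2
  exact h2

/-- the local ideal in bihomogeneous coordinates -/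
def JJ {L : Type} [NontriviallyNormedField L] (σ : ℚ →+* L)
    (Q : Fin (d + 1) → Matrix (Fin N) (Fin N) ℚ) (x : Fin N → L) (s : Fin 2 → L) :
    Set (MvPolynomial (Fin N ⊕ Fin 2) ℚ) :=
  {f | ∃ U ∈ 𝓝 (x, s), ∀ (Y : Fin N → ℚ) (T : Fin 2 → ℚ), Y ≠ 0 → T ≠ 0 → FF Q T Y = 0 →
    (∃ c e : L, c ≠ 0 ∧ e ≠ 0 ∧ ((fun i => c * σ (Y i)), fun j => e * σ (T j)) ∈ U) →
    ∀ a b : ℚ, MvPolynomial.eval (Sum.elim (a • Y) (b • T)) f = 0}

/-- the translation of ideals -/
def PS (i₀ : Fin 2) (I : Ideal (MvPolynomial (Fin (N + 1)) ℚ)) :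
    Set (MvPolynomial (Fin N ⊕ Fin 2) ℚ) := {f | ∀ b : ℚ, sb i₀ b f ∈ I}

lemma ch_ne {i₀ : Fin 2} {b t : ℚ} (hb : b ≠ 0) : ch i₀ b t ≠ 0 := by
  intro h
  have := congrFun h i₀
  simp only [ch, if_true, Pi.zero_apply] at this
  exact hb this

theorem JJ_eq {L : Type} [NontriviallyNormedField L] [CompleteSpace L] [CharZero L] (σ : ℚ →+* L)
    (hσ : DenseRange σ) (Q : Fin (d + 1) → Matrix (Fin N) (Fin N) ℚ) (i₀ : Fin 2) (x : Fin N → L)
    (s : Fin 2 → L) (hx : x ≠ 0) (hs : s i₀ ≠ 0) :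
    JJ σ Q x s = PS i₀ (IA σ (Sall (AC Q i₀))
      (Fin.cons (s (1 - i₀) / s i₀) x : Fin (N + 1) → L)) := by
  have hne10 : (1 - i₀ : Fin 2) ≠ i₀ := by fin_cases i₀ <;> decide
  have hcase : ∀ j : Fin 2, j = i₀ ∨ j = 1 - i₀ := by
    intro j
    fin_cases i₀ <;> fin_cases j <;> decide
  ext f
  constructor
  · rintro ⟨U, hU, hUf⟩ b
    rw [mem_IA_iff]
    -- the map of the chart to the cone
    set Φ : (Fin (N + 1) → L) → (Fin N → L) × (Fin 2 → L) := fun z =>
      ((fun i => z i.succ), fun j => if j = i₀ then s i₀ else s i₀ * z 0) with hΦ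
    have hΦc : Continuous Φ := by
      refine (continuous_pi fun i => continuous_apply _).prodMk (continuous_pi fun j => ?_)
      by_cases hj : j = i₀
      · simp only [if_pos hj]
        exact continuous_const
      · simp only [if_neg hj]
        exact continuous_const.mul (continuous_apply _)
    have hΦx : Φ (Fin.cons (s (1 - i₀) / s i₀) x) = (x, s) := by
      rw [hΦ]
      refine Prod.ext ?_ ?_
      · funext i
        simp
      · funext j
        simp only [Fin.cons_zero]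
        rcases hcase j with rfl | hj
        · rw [if_pos rfl]
        · rw [hj, if_neg hne10]
          field_simp
    have h1 : Φ ⁻¹' U ∈ 𝓝 (Fin.cons (s (1 - i₀) / s i₀) x : Fin (N + 1) → L) := by
      apply hΦc.continuousAt.preimage_mem_nhds
      rw [hΦx]
      exact hU
    have hopen : IsOpen {x : Fin (N + 1) → L | (fun i : Fin N => x i.succ) ≠ 0} := by
      have hc : Continuous fun x : Fin (N + 1) → L => fun i : Fin N => x i.succ :=
        continuous_pi fun i => continuous_apply _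
      exact isOpen_ne.preimage hc
    have h2 : {x : Fin (N + 1) → L | (fun i : Fin N => x i.succ) ≠ 0} ∈
        𝓝 (Fin.cons (s (1 - i₀) / s i₀) x : Fin (N + 1) → L) := by
      apply hopen.mem_nhds
      simpa using hx
    refine ⟨_, inter_mem h1 h2, ?_⟩
    rintro y hy ⟨hy1, hy2⟩
    rw [eval_sb]
    have hY : (fun i : Fin N => y i.succ) ≠ 0 := by
      intro h
      apply hy2
      funext i
      have := congrFun h i
      simp only [Pi.zero_apply] at this
      show σ (y i.succ) = 0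
      rw [this, map_zero]
    have h3 := hUf (fun i => y i.succ) (ch i₀ 1 (y 0)) hY (ch_ne one_ne_zero) ?_
      ⟨1, s i₀, one_ne_zero, hs, ?_⟩ 1 b
    · rw [one_smul] at h3
      have e : b • ch i₀ 1 (y 0) = ch i₀ b (y 0) := by
        funext j
        simp only [Pi.smul_apply, ch, smul_eq_mul]
        by_cases hj : j = i₀
        · rw [if_pos hj, if_pos hj, mul_one]
        · rw [if_neg hj, if_neg hj, one_mul]
      rwa [e] at h3
    · rw [FF_ch, one_pow, one_mul]
      exact hy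
    · have e : ((fun i : Fin N => (1 : L) * σ (y i.succ)),
          fun j => s i₀ * σ (ch i₀ 1 (y 0) j)) = Φ fun i => σ (y i) := by
        rw [hΦ]
        refine Prod.ext ?_ ?_
        · funext i
          simp
        · funext j
          simp only [ch]
          by_cases hj : j = i₀
          · rw [if_pos hj, if_pos hj, map_one, mul_one]
          · rw [if_neg hj, if_neg hj, one_mul]
      rw [e]
      exact hy1
  · intro hf
    obtain ⟨V, hV, hVs⟩ := Filter.eventually_iff_exists_mem.1 (IA_stab σ (Sall (AC Q i₀))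
      (Fin.cons (s (1 - i₀) / s i₀) x : Fin (N + 1) → L))
    -- the map of the cone to the chart
    have hcontΘ : ContinuousAt (fun p : (Fin N → L) × (Fin 2 → L) =>
        (Fin.cons (p.2 (1 - i₀) / p.2 i₀) p.1 : Fin (N + 1) → L)) (x, s) := by
      rw [continuousAt_pi]
      intro i
      refine Fin.cases ?_ (fun j => ?_) i
      · simp only [Fin.cons_zero]
        exact ((continuous_apply (1 - i₀)).comp continuous_snd).continuousAt.div
          ((continuous_apply i₀).comp continuous_snd).continuousAt hs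
      · simp only [Fin.cons_succ]
        exact ((continuous_apply j).comp continuous_fst).continuousAt
    have h1 : (fun p : (Fin N → L) × (Fin 2 → L) =>
        (Fin.cons (p.2 (1 - i₀) / p.2 i₀) p.1 : Fin (N + 1) → L)) ⁻¹' (interior V) ∈ 𝓝 (x, s) :=
      hcontΘ.preimage_mem_nhds (isOpen_interior.mem_nhds (mem_interior_iff_mem_nhds.2 hV))
    have h2 : {p : (Fin N → L) × (Fin 2 → L) | p.2 i₀ ≠ 0} ∈ 𝓝 (x, s) := by
      have : IsOpen {p : (Fin N → L) × (Fin 2 → L) | p.2 i₀ ≠ 0} :=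
        isOpen_ne.preimage ((continuous_apply i₀).comp continuous_snd)
      exact this.mem_nhds hs
    refine ⟨_, inter_mem h1 h2, ?_⟩
    rintro Y T hY hT hF ⟨c, e, hc, he, hce1, hce2⟩ a b
    have hTi : T i₀ ≠ 0 := by
      intro h
      apply hce2
      show e * σ (T i₀) = 0
      rw [h, map_zero, mul_zero]
    have hσT : σ (T i₀) ≠ 0 := (map_ne_zero σ).2 hTi
    set t : ℚ := T (1 - i₀) / T i₀ with ht
    have hTch : T = ch i₀ (T i₀) t := eq_ch hTi
    have hqt : qv (Aat (AC Q i₀) t) Y = 0 := by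
      rw [hTch, FF_ch] at hF
      rcases mul_eq_zero.1 hF with h | h
      · exact absurd h (pow_ne_zero _ hTi)
      · exact h
    have hce1' : (Fin.cons (σ t) (fun i => c * σ (Y i)) : Fin (N + 1) → L) ∈ interior V := by
      have e1 : (Fin.cons ((e * σ (T (1 - i₀))) / (e * σ (T i₀))) (fun i => c * σ (Y i)) :
          Fin (N + 1) → L) ∈ interior V := hce1
      have e2 : (e * σ (T (1 - i₀))) / (e * σ (T i₀)) = σ t := by
        rw [ht, map_div₀]
        field_simp
      rwa [e2] at e1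
    -- rational multiples
    have hcontc : Continuous fun c' : L => (Fin.cons (σ t) (fun i => c' * σ (Y i)) :
        Fin (N + 1) → L) := by
      refine continuous_pi fun i => ?_
      refine Fin.cases ?_ (fun j => ?_) i
      · simp only [Fin.cons_zero]
        exact continuous_const
      · simp only [Fin.cons_succ]
        exact continuous_id.mul continuous_const
    have hcU : (fun c' : L => (Fin.cons (σ t) (fun i => c' * σ (Y i)) : Fin (N + 1) → L)) ⁻¹'
        (interior V) ∈ 𝓝 c := hcontc.continuousAt.preimage_mem_nhds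
          (isOpen_interior.mem_nhds hce1')
    have hinf := infinite_near' σ hσ hcU
    have hpf : PF1 fun c' : ℚ => MvPolynomial.eval (fun i : Fin N ⊕ Fin 2 =>
        (fun (i : Fin N ⊕ Fin 2) (c' : ℚ) => (Sum.elim (c' • Y) (b • T) : Fin N ⊕ Fin 2 → ℚ) i)
          i c') f := by
      refine PF1.eval (φ := fun (i : Fin N ⊕ Fin 2) (c' : ℚ) =>
        (Sum.elim (c' • Y) (b • T) : Fin N ⊕ Fin 2 → ℚ) i) ?_ f
      rintro (i | j)
      · simp only [Sum.elim_inl, Pi.smul_apply, smul_eq_mul]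
        exact PF1.id'.mul (PF1.const _)
      · simp only [Sum.elim_inr]
        exact PF1.const _
    refine hpf.zero (hinf.mono ?_) a
    rintro c' ⟨hc'1, -⟩
    show MvPolynomial.eval (Sum.elim (c' • Y) (b • T)) f = 0
    have hmem : (Fin.cons t (c' • Y) : Fin (N + 1) → ℚ) ∈ Sall (AC Q i₀) := by
      show qv (Aat (AC Q i₀) ((Fin.cons t (c' • Y) : Fin (N + 1) → ℚ) 0))
        (fun i => (Fin.cons t (c' • Y) : Fin (N + 1) → ℚ) i.succ) = 0
      simp only [Fin.cons_zero, Fin.cons_succ]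
      have := qv_smul c' (Aat (AC Q i₀) t) Y
      rw [hqt, mul_zero] at this
      exact this
    have e3 : (fun i => σ ((Fin.cons t (c' • Y) : Fin (N + 1) → ℚ) i)) =
        (Fin.cons (σ t) (fun i => σ c' * σ (Y i)) : Fin (N + 1) → L) := by
      funext i
      refine Fin.cases ?_ (fun j => ?_) i <;> simp
    have h4 := hVs _ (interior_subset hc'1) (Fin.cons t (c' • Y)) hmem e3 _ (hf (b * T i₀))
    rw [eval_sb] at h4
    simp only [Fin.cons_zero, Fin.cons_succ] at h4
    have e4 : ch i₀ (b * T i₀) t = b • T := by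
      conv_rhs => rw [hTch]
      funext j
      simp only [Pi.smul_apply, ch, smul_eq_mul]
      by_cases hj : j = i₀
      · rw [if_pos hj, if_pos hj]
      · rw [if_neg hj, if_neg hj, mul_assoc]
    rw [e4] at h4
    exact h4

/-- the determinants of the charts -/
lemma det_AC_ne (Q : Fin (d + 1) → Matrix (Fin N) (Fin N) ℚ)
    (h : ∃ t : ℚ, (∑ i : Fin (d + 1), t ^ (i : ℕ) • Q i).det ≠ 0) (i₀ : Fin 2) :
    (AC Q i₀).det ≠ 0 := by
  have h0 : (AC Q 0).det ≠ 0 := by
    obtain ⟨t, ht⟩ := h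
    intro h0
    apply ht
    have := det_Aat (AC Q 0) t
    rw [h0, Polynomial.eval_zero, Aat_AC] at this
    simpa using this
  have hcase : i₀ = 0 ∨ i₀ = 1 := by fin_cases i₀ <;> simp
  rcases hcase with rfl | rfl
  · exact h0
  · intro h1
    -- a parameter different from zero
    have hfin : ({t : ℚ | (AC Q 0).det.IsRoot t} ∪ {0}).Finite :=
      (Polynomial.finite_setOfPred_isRoot h0).union (Set.finite_singleton _)
    obtain ⟨t, ht⟩ := hfin.infinite_compl.nonempty
    rw [Set.mem_compl_iff, Set.mem_union, not_or] at ht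
    obtain ⟨ht1, ht2⟩ := ht
    have ht0 : t ≠ 0 := ht2
    apply ht1
    show (AC Q 0).det.eval t = 0
    rw [← det_Aat]
    have h2 := det_Aat (AC Q 1) t⁻¹
    rw [h1, Polynomial.eval_zero] at h2
    have h3 : Aat (AC Q 0) t = t ^ d • Aat (AC Q 1) t⁻¹ := by
      rw [Aat_AC, Aat_AC, Finset.smul_sum]
      refine Finset.sum_congr rfl fun i _ => ?_
      have hi : (i : ℕ) ≤ d := Nat.lt_succ_iff.1 i.2
      rw [smul_smul, if_pos rfl, if_neg one_ne_zero]
      congr 1
      have h4 : t ^ d = t ^ (d - (i : ℕ)) * t ^ (i : ℕ) := by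
        rw [← pow_add]
        congr 1
        omega
      rw [h4, inv_pow]
      field_simp
    rw [h3, Matrix.det_smul, h2, mul_zero]

theorem bih (hNEAR : S_NEAR) (hLIFT : S_LIFT) (hGLOB : S_GLOB) (hALG : S_ALG) (hMAT : S_MAT)
    {L : Type} [NontriviallyNormedField L] [CompleteSpace L] [CharZero L] [ProperSpace L]
    (σ : ℚ →+* L) (hσ : DenseRange σ) (hN : 5 ≤ N) (Q : Fin (d + 1) → Matrix (Fin N) (Fin N) ℚ)
    (hQ : ∀ i, (Q i).IsSymm) (h : ∃ t : ℚ, (∑ i : Fin (d + 1), t ^ (i : ℕ) • Q i).det ≠ 0) :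
    {J | ∃ (x : Fin N → L) (s : Fin 2 → L), x ≠ 0 ∧ s ≠ 0 ∧ J = JJ σ Q x s}.Finite := by
  have h1 : ∀ i₀ : Fin 2, ((fun x : Fin (N + 1) → L => IA σ (Sall (AC Q i₀)) x) ''
      {x : Fin (N + 1) → L | (fun i : Fin N => x i.succ) ≠ 0}).Finite := fun i₀ =>
    affine hNEAR hLIFT hGLOB hALG hMAT σ hσ hN (AC Q i₀) (AC_symm Q hQ i₀) (det_AC_ne Q h i₀)
  have h2 := Set.finite_iUnion fun i₀ : Fin 2 => (h1 i₀).image (PS i₀)
  refine h2.subset ?_
  rintro _ ⟨x, s, hx, hs, rfl⟩
  obtain ⟨i₀, hi₀⟩ : ∃ i₀, s i₀ ≠ 0 := by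
    by_contra hcon
    push Not at hcon
    exact hs (funext hcon)
  rw [Set.mem_iUnion]
  refine ⟨i₀, _, ⟨Fin.cons (s (1 - i₀) / s i₀) x, ?_, rfl⟩, (JJ_eq σ hσ Q i₀ x s hx hi₀).symm⟩
  show (fun i : Fin N => (Fin.cons (s (1 - i₀) / s i₀) x : Fin (N + 1) → L) i.succ) ≠ 0
  simpa using hx

end Pool.Agent.R847.QM
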