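import Pool.Agent.R847.QM.Stm

/-!
# Project QM, part CONE: the cylinder over the rational isotropic vectors in a direction is dense
-/

set_option autoImplicit false

namespace Pool.Agent.R847.QM

open Matrix Topology

namespace ConeAux

section

variable {R : Type} [CommRing R] {N : ℕ}

/-- the bilinear form -/
def bl (M : Matrix (Fin N) (Fin N) R) (x y : Fin N → R) : R := x ⬝ᵥ M.mulVec y

theorem qv_eq (M : Matrix (Fin N) (Fin N) R) (x : Fin N → R) : qv M x = bl M x x := rfl

theorem bl_add_left (M : Matrix (Fin N) (Fin N) R) (x x' y : Fin N → R) :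
    bl M (x + x') y = bl M x y + bl M x' y := add_dotProduct _ _ _

theorem bl_sub_left (M : Matrix (Fin N) (Fin N) R) (x x' y : Fin N → R) :
    bl M (x - x') y = bl M x y - bl M x' y := sub_dotProduct _ _ _

theorem bl_smul_left (M : Matrix (Fin N) (Fin N) R) (c : R) (x y : Fin N → R) :
    bl M (c • x) y = c * bl M x y := smul_dotProduct _ _ _

theorem bl_comm {M : Matrix (Fin N) (Fin N) R} (hM : M.IsSymm) (x y : Fin N → R) :
    bl M x y = bl M y x := by
  unfold bl
  rw [Matrix.dotProduct_mulVec, ← Matrix.mulVec_transpose, hM.eq, dotProduct_comm]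

theorem bl_add_right {M : Matrix (Fin N) (Fin N) R} (hM : M.IsSymm) (x y y' : Fin N → R) :
    bl M x (y + y') = bl M x y + bl M x y' := by
  rw [bl_comm hM, bl_add_left, bl_comm hM y, bl_comm hM y']

theorem bl_sub_right {M : Matrix (Fin N) (Fin N) R} (hM : M.IsSymm) (x y y' : Fin N → R) :
    bl M x (y - y') = bl M x y - bl M x y' := by
  rw [bl_comm hM, bl_sub_left, bl_comm hM y, bl_comm hM y']

theorem bl_smul_right {M : Matrix (Fin N) (Fin N) R} (hM : M.IsSymm) (c : R) (x y : Fin N → R) :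
    bl M x (c • y) = c * bl M x y := by
  rw [bl_comm hM, bl_smul_left, bl_comm hM y]

theorem qv_add_smul {M : Matrix (Fin N) (Fin N) R} (hM : M.IsSymm) (x e : Fin N → R) (s : R) :
    qv M (x + s • e) = qv M x + 2 * s * bl M x e + s ^ 2 * qv M e := by
  simp only [qv_eq, bl_add_left, bl_add_right hM, bl_smul_left, bl_smul_right hM]
  rw [bl_comm hM e x]
  ring

/-- the projection -/
def pr (M : Matrix (Fin N) (Fin N) R) (w u : Fin N → R) : Fin N → R :=
  qv M u • w - (2 * bl M w u) • u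

theorem qv_pr {M : Matrix (Fin N) (Fin N) R} (hM : M.IsSymm) (w u : Fin N → R)
    (hw : qv M w = 0) : qv M (pr M w u) = 0 := by
  unfold pr
  simp only [qv_eq] at hw ⊢
  simp only [bl_sub_left, bl_sub_right hM, bl_smul_left, bl_smul_right hM]
  rw [bl_comm hM u w, hw]
  ring

theorem qv_smul {M : Matrix (Fin N) (Fin N) R} (hM : M.IsSymm) (c : R) (x : Fin N → R) :
    qv M (c • x) = c ^ 2 * qv M x := by
  simp only [qv_eq, bl_smul_left, bl_smul_right hM]
  ring

variable {S : Type} [CommRing S]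

theorem map_bl (φ : R →+* S) (M : Matrix (Fin N) (Fin N) R) (x y : Fin N → R) :
    φ (bl M x y) = bl (M.map φ) (φ ∘ x) (φ ∘ y) := by
  unfold bl
  rw [RingHom.map_dotProduct]
  congr 1
  funext i
  exact RingHom.map_mulVec φ M y i

theorem map_pr (φ : R →+* S) (M : Matrix (Fin N) (Fin N) R) (w u : Fin N → R) :
    φ ∘ (pr M w u) = pr (M.map φ) (φ ∘ w) (φ ∘ u) := by
  funext i
  simp only [pr, Function.comp_apply, Pi.sub_apply, Pi.smul_apply, smul_eq_mul, map_sub, map_mul,
    qv_eq, map_bl, map_ofNat]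

end

section

variable {N : ℕ} (M : Matrix (Fin N) (Fin N) ℚ) (w e : Fin N → ℚ) (h : MvPolynomial (Fin N) ℚ)

/-- the polynomial expression, over any `ℚ`-algebra -/
noncomputable def GG (S : Type) [CommRing S] [Algebra ℚ S] (c s : S) (u : Fin N → S) : S :=
  MvPolynomial.aeval (c • pr (M.map (algebraMap ℚ S)) (algebraMap ℚ S ∘ w) u +
      s • (algebraMap ℚ S ∘ e)) h *
    bl (M.map (algebraMap ℚ S)) (c • pr (M.map (algebraMap ℚ S)) (algebraMap ℚ S ∘ w) u)
      (algebraMap ℚ S ∘ e)

theorem map_GG {S S' : Type} [CommRing S] [Algebra ℚ S] [CommRing S'] [Algebra ℚ S']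
    (φ : S →ₐ[ℚ] S') (c s : S) (u : Fin N → S) :
    φ (GG M w e h S c s u) = GG M w e h S' (φ c) (φ s) (φ ∘ u) := by
  have hmap : (M.map (algebraMap ℚ S)).map (φ : S →+* S') = M.map (algebraMap ℚ S') := by
    ext i j
    simp
  have hw : ∀ z : Fin N → ℚ, (φ : S →+* S') ∘ (algebraMap ℚ S ∘ z) = algebraMap ℚ S' ∘ z := by
    intro z
    funext i
    simp
  have hpr : ∀ i, φ (pr (M.map (algebraMap ℚ S)) (algebraMap ℚ S ∘ w) u i) =
      pr (M.map (algebraMap ℚ S')) (algebraMap ℚ S' ∘ w) (φ ∘ u) i := by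
    intro i
    have := congrFun (map_pr (φ : S →+* S') (M.map (algebraMap ℚ S)) (algebraMap ℚ S ∘ w) u) i
    rw [hmap, hw] at this
    exact this
  unfold GG
  rw [map_mul]
  congr 1
  · have h1 : ∀ (x : Fin N → S), φ (MvPolynomial.aeval x h) = MvPolynomial.aeval (φ ∘ x) h := by
      intro x
      exact MvPolynomial.comp_aeval_apply x φ h
    rw [h1]
    congr 2
    funext i
    simp only [Function.comp_apply, Pi.add_apply, Pi.smul_apply, smul_eq_mul, map_add, map_mul,
      hpr]
    simp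
  · have h2 := map_bl (φ : S →+* S') (M.map (algebraMap ℚ S))
      (c • pr (M.map (algebraMap ℚ S)) (algebraMap ℚ S ∘ w) u) (algebraMap ℚ S ∘ e)
    rw [hmap, hw] at h2
    refine h2.trans ?_
    congr 1
    funext i
    simp only [Function.comp_apply, Pi.smul_apply, smul_eq_mul, map_mul]
    rw [← hpr]
    rfl

theorem GG_eq_zero (hM : M.IsSymm) (hw : qv M w = 0)
    (hh : ∀ (v : Fin N → ℚ) (s : ℚ), qv M v = 0 → v ⬝ᵥ M.mulVec e ≠ 0 →
        MvPolynomial.eval (v + s • e) h = 0) (c s : ℂ) (u : Fin N → ℂ) :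
    GG M w e h ℂ c s u = 0 := by
  let P : MvPolynomial (Fin N ⊕ Fin 2) ℚ :=
    GG M w e h (MvPolynomial (Fin N ⊕ Fin 2) ℚ) (MvPolynomial.X (Sum.inr 0))
      (MvPolynomial.X (Sum.inr 1)) (fun i => MvPolynomial.X (Sum.inl i))
  have hP : P = 0 := by
    apply MvPolynomial.funext
    intro x
    rw [map_zero]
    have h1 : MvPolynomial.eval x P = MvPolynomial.aeval x P := by
      rw [← MvPolynomial.coe_aeval_eq_eval]; rfl
    rw [h1]
    show MvPolynomial.aeval x (GG M w e h (MvPolynomial (Fin N ⊕ Fin 2) ℚ)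
      (MvPolynomial.X (Sum.inr 0)) (MvPolynomial.X (Sum.inr 1))
      (fun i => MvPolynomial.X (Sum.inl i))) = 0
    rw [map_GG]
    unfold GG
    have hM' : M.map (algebraMap ℚ ℚ) = M := by ext i j; simp
    have hid : ∀ z : Fin N → ℚ, algebraMap ℚ ℚ ∘ z = z := fun z => by funext i; simp
    rw [hM', hid, hid]
    by_cases hb : bl M ((MvPolynomial.aeval x) (MvPolynomial.X (Sum.inr 0) :
          MvPolynomial (Fin N ⊕ Fin 2) ℚ) •
        pr M w (⇑(MvPolynomial.aeval x) ∘ fun i => (MvPolynomial.X (Sum.inl i) :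
          MvPolynomial (Fin N ⊕ Fin 2) ℚ))) e = 0
    · rw [hb, mul_zero]
    · have h2 := hh ((MvPolynomial.aeval x) (MvPolynomial.X (Sum.inr 0) :
          MvPolynomial (Fin N ⊕ Fin 2) ℚ) •
        pr M w (⇑(MvPolynomial.aeval x) ∘ fun i => (MvPolynomial.X (Sum.inl i) :
          MvPolynomial (Fin N ⊕ Fin 2) ℚ)))
        ((MvPolynomial.aeval x) (MvPolynomial.X (Sum.inr 1) : MvPolynomial (Fin N ⊕ Fin 2) ℚ))
        (by rw [qv_smul hM, qv_pr hM _ _ hw, mul_zero]) hb
      have h3 : ∀ y : Fin N → ℚ, (MvPolynomial.aeval y) h = MvPolynomial.eval y h := fun y => by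
        rw [← MvPolynomial.coe_aeval_eq_eval]; rfl
      rw [h3]
      rw [h2, zero_mul]
  let z : Fin N ⊕ Fin 2 → ℂ := Sum.elim u (fun i => if i = 0 then c else s)
  have h4 := map_GG M w e h (MvPolynomial.aeval z : MvPolynomial (Fin N ⊕ Fin 2) ℚ →ₐ[ℚ] ℂ)
    (MvPolynomial.X (Sum.inr 0)) (MvPolynomial.X (Sum.inr 1)) (fun i => MvPolynomial.X (Sum.inl i))
  have h5 : (MvPolynomial.aeval z) P = 0 := by rw [hP, map_zero]
  have h6 : (⇑(MvPolynomial.aeval z : MvPolynomial (Fin N ⊕ Fin 2) ℚ →ₐ[ℚ] ℂ) ∘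
      fun i => MvPolynomial.X (Sum.inl i)) = u := by
    funext i
    simp [z]
  rw [h6] at h4
  simp only [MvPolynomial.aeval_X] at h4
  have h7 : z (Sum.inr 0) = c := by simp [z]
  have h8 : z (Sum.inr 1) = s := by simp [z]
  rw [h7, h8] at h4
  rw [← h4]
  exact h5

end

end ConeAux

open ConeAux in
theorem cone_ : S_CONE := by
  intro N hN M hM hdet hex e he h hh
  have hbe : ∀ v : Fin N → ℚ, v ⬝ᵥ M.mulVec e = bl M v e := fun _ => rfl
  -- a good isotropic vector
  obtain ⟨w, hw, hwe⟩ : ∃ w : Fin N → ℚ, qv M w = 0 ∧ bl M w e ≠ 0 := by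
    obtain ⟨w0, hw0, hq0⟩ := hex
    by_cases h0 : bl M w0 e = 0
    · obtain ⟨u1, hu1⟩ : ∃ u1 : Fin N → ℚ, bl M w0 u1 ≠ 0 := by
        by_contra hcon
        push Not at hcon
        apply hw0
        have h1 : M.mulVec w0 = 0 := by
          funext i
          have := hcon (Pi.single i 1)
          rw [bl_comm hM] at this
          unfold bl at this
          rw [single_dotProduct, one_mul] at this
          exact this
        have h2 := congrArg (fun z => M⁻¹.mulVec z) h1
        simp only [Matrix.mulVec_mulVec, Matrix.mulVec_zero] at h2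
        rwa [Matrix.nonsing_inv_mul _ (isUnit_iff_ne_zero.2 hdet), Matrix.one_mulVec] at h2
      let t : ℚ := (1 - bl M u1 e) / qv M e
      let u : Fin N → ℚ := u1 + t • e
      have h3 : bl M w0 u = bl M w0 u1 := by
        show bl M w0 (u1 + t • e) = _
        rw [bl_add_right hM, bl_smul_right hM, h0, mul_zero, add_zero]
      have h4 : bl M u e = 1 := by
        show bl M (u1 + t • e) e = _
        rw [bl_add_left, bl_smul_left, ← qv_eq]
        show _ + (1 - bl M u1 e) / qv M e * qv M e = 1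
        rw [div_mul_cancel₀ _ he]
        ring
      refine ⟨pr M w0 u, qv_pr hM _ _ hq0, ?_⟩
      unfold pr
      rw [bl_sub_left, bl_smul_left, bl_smul_left, h0, h4, h3, mul_zero, zero_sub, mul_one]
      simpa using hu1
    · exact ⟨w0, hq0, h0⟩
  have hG := GG_eq_zero M w e h hM hw hh
  -- the key statement
  have key : ∀ Y : Fin N → ℚ, bl M Y e ^ 2 - qv M e * qv M Y ≠ 0 → MvPolynomial.eval Y h = 0 := by
    intro Y hY
    let ι : ℚ →+* ℂ := algebraMap ℚ ℂ
    let Mc : Matrix (Fin N) (Fin N) ℂ := M.map ι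
    have hMc : Mc.IsSymm := by
      show (M.map ι)ᵀ = M.map ι
      rw [← Matrix.transpose_map, hM.eq]
    let ec : Fin N → ℂ := ι ∘ e
    let wc : Fin N → ℂ := ι ∘ w
    let Yc : Fin N → ℂ := ι ∘ Y
    have hwc : qv Mc wc = 0 := by
      have := map_bl ι M w w
      rw [← qv_eq, hw, map_zero] at this
      exact this.symm
    have hec : qv Mc ec = ι (qv M e) := (map_bl ι M e e).symm
    have hec0 : qv Mc ec ≠ 0 := by
      rw [hec]
      exact (map_ne_zero ι).2 he
    have hwec : bl Mc wc ec ≠ 0 := by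
      have : bl Mc wc ec = ι (bl M w e) := (map_bl ι M w e).symm
      rw [this]
      exact (map_ne_zero ι).2 hwe
    obtain ⟨r, hr⟩ := IsAlgClosed.exists_pow_nat_eq (bl Mc Yc ec ^ 2 - qv Mc ec * qv Mc Yc)
      (n := 2) (by norm_num)
    have hr0 : r ≠ 0 := by
      intro h0
      have hYe : bl Mc Yc ec = ι (bl M Y e) := (map_bl ι M Y e).symm
      have hYY : qv Mc Yc = ι (qv M Y) := (map_bl ι M Y Y).symm
      have h1 : bl Mc Yc ec ^ 2 - qv Mc ec * qv Mc Yc = ι (bl M Y e ^ 2 - qv M e * qv M Y) := by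
        rw [hYe, hYY, hec, map_sub, map_pow, map_mul]
      rw [h0, h1] at hr
      have h2 : ι (bl M Y e ^ 2 - qv M e * qv M Y) = 0 := by rw [← hr]; norm_num
      exact hY ((map_eq_zero ι).1 h2)
    -- the two roots
    have hroot : ∀ ρ : ℂ, ρ ^ 2 = bl Mc Yc ec ^ 2 - qv Mc ec * qv Mc Yc → ρ ≠ 0 →
        bl Mc wc (Yc + ((-bl Mc Yc ec + ρ) / qv Mc ec) • ec) ≠ 0 →
        MvPolynomial.eval Y h = 0 := by
      intro ρ hρ hρ0 hb
      set s : ℂ := (-bl Mc Yc ec + ρ) / qv Mc ec with hs
      have hs' : s * qv Mc ec = -bl Mc Yc ec + ρ := by rw [hs, div_mul_cancel₀ _ hec0]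
      set v : Fin N → ℂ := Yc + s • ec with hv
      have hqv : qv Mc v = 0 := by
        rw [hv, qv_add_smul hMc]
        have : (qv Mc Yc + 2 * s * bl Mc Yc ec + s ^ 2 * qv Mc ec) * qv Mc ec = 0 := by
          linear_combination (s * qv Mc ec + bl Mc Yc ec + ρ) * hs' + hρ
        exact (mul_eq_zero.1 this).resolve_right hec0
      have hbve : bl Mc v ec = ρ := by
        rw [hv, bl_add_left, bl_smul_left, ← qv_eq, hs']
        ring
      have hpr : (-1 / (2 * bl Mc wc v)) • pr Mc wc v = v := by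
        unfold pr
        rw [hqv, zero_smul, zero_sub, smul_neg, smul_smul]
        have : -1 / (2 * bl Mc wc v) * (2 * bl Mc wc v) = -1 := by
          field_simp
        rw [this, neg_smul, one_smul, neg_neg]
      have h1 := hG (-1 / (2 * bl Mc wc v)) (-s) v
      unfold GG at h1
      have h2 : (-1 / (2 * bl Mc wc v)) • pr (M.map (algebraMap ℚ ℂ)) (algebraMap ℚ ℂ ∘ w) v = v :=
        hpr
      rw [h2] at h1
      have h3 : bl (M.map (algebraMap ℚ ℂ)) v (algebraMap ℚ ℂ ∘ e) = ρ := hbve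
      rw [h3] at h1
      have h4 : v + -s • (algebraMap ℚ ℂ ∘ e) = Yc := by
        rw [hv]
        show Yc + s • ec + -s • ec = Yc
        rw [neg_smul]
        abel
      rw [h4] at h1
      have h5 := (mul_eq_zero.1 h1).resolve_right hρ0
      have h6 : MvPolynomial.aeval Yc h = ι (MvPolynomial.eval Y h) := by
        rw [MvPolynomial.aeval_def, ← MvPolynomial.eval₂_id, MvPolynomial.hom_eval₂]
        rfl
      rw [h6] at h5
      exact (map_eq_zero ι).1 h5
    by_cases hb1 : bl Mc wc (Yc + ((-bl Mc Yc ec + r) / qv Mc ec) • ec) = 0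
    · by_cases hb2 : bl Mc wc (Yc + ((-bl Mc Yc ec + -r) / qv Mc ec) • ec) = 0
      · exfalso
        rw [bl_add_right hMc, bl_smul_right hMc] at hb1 hb2
        have h1 : (2 * r) * bl Mc wc ec = 0 := by
          have h2 : ((-bl Mc Yc ec + r) / qv Mc ec - (-bl Mc Yc ec + -r) / qv Mc ec) *
              bl Mc wc ec = 0 := by
            linear_combination hb1 - hb2
          rw [← sub_div] at h2
          have h3 : (-bl Mc Yc ec + r - (-bl Mc Yc ec + -r)) = 2 * r := by ring
          rw [h3, div_mul_eq_mul_div, div_eq_zero_iff] at h2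
          exact h2.resolve_right hec0
        rcases mul_eq_zero.1 h1 with h | h
        · exact hr0 (by simpa using h)
        · exact hwec h
      · exact hroot (-r) (by rw [neg_sq]; exact hr) (neg_ne_zero.2 hr0) hb2
    · exact hroot r hr hr0 hb1
  -- the discriminant as a polynomial
  let Mp : Matrix (Fin N) (Fin N) (MvPolynomial (Fin N) ℚ) := M.map MvPolynomial.C
  let ep : Fin N → MvPolynomial (Fin N) ℚ := MvPolynomial.C ∘ e
  let D : MvPolynomial (Fin N) ℚ := bl Mp MvPolynomial.X ep ^ 2 - qv Mp ep * qv Mp MvPolynomial.X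
  have hD : ∀ Y : Fin N → ℚ, MvPolynomial.eval Y D = bl M Y e ^ 2 - qv M e * qv M Y := by
    intro Y
    have hMp : Mp.map (MvPolynomial.eval Y) = M := by
      ext i j
      simp [Mp]
    have hep : (MvPolynomial.eval Y) ∘ ep = e := by
      funext i
      simp [ep]
    have hX : (MvPolynomial.eval Y) ∘ (MvPolynomial.X : Fin N → MvPolynomial (Fin N) ℚ) = Y := by
      funext i
      simp
    show MvPolynomial.eval Y (bl Mp MvPolynomial.X ep ^ 2 - qv Mp ep * qv Mp MvPolynomial.X) = _
    rw [map_sub, map_pow, map_mul, qv_eq, qv_eq, map_bl, map_bl, map_bl, hMp, hep, hX]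
    rfl
  have hmul : h * D = 0 := by
    apply MvPolynomial.funext
    intro Y
    rw [map_mul, map_zero]
    by_cases hY : MvPolynomial.eval Y D = 0
    · rw [hY, mul_zero]
    · rw [hD] at hY
      rw [key Y hY, zero_mul]
  rcases mul_eq_zero.1 hmul with h1 | h1
  · exact h1
  · exfalso
    have h2 := hD w
    rw [h1, map_zero, hw, mul_zero, sub_zero] at h2
    exact hwe (by
      have := h2.symm
      exact pow_eq_zero_iff (two_ne_zero) |>.1 this)

end Pool.Agent.R847.QM
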