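import Mathlib

/-!
# Local Zariski closures of the rational points of one-parameter families of quadrics:
statements of the parts (project QM, helper847)
-/

set_option autoImplicit false

namespace Pool.Agent.R847.QM

open Matrix Topology

/-- the value of the quadratic form with the matrix `M` -/
def qv {R : Type} [CommRing R] {N : ℕ} (M : Matrix (Fin N) (Fin N) R) (v : Fin N → R) : R :=
  v ⬝ᵥ M.mulVec v

/-- the matrix at the point `t` of the line -/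
noncomputable def Aat {N : ℕ} (A : Matrix (Fin N) (Fin N) (Polynomial ℚ)) (t : ℚ) :
    Matrix (Fin N) (Fin N) ℚ :=
  A.map (Polynomial.eval t)

/-- Part NEAR: rational numbers close to `t₀` in `L` and in `ℝ`. -/
def S_NEAR : Prop := ∀ (L : Type) [NontriviallyNormedField L] (σ : ℚ →+* L), DenseRange σ →
  ∀ (t₀ : ℚ) (U : Set L) (V : Set ℝ), U ∈ 𝓝 (σ t₀) → V ∈ 𝓝 ((t₀ : ℚ) : ℝ) →
    {t : ℚ | σ t ∈ U ∧ ((t : ℚ) : ℝ) ∈ V}.Infinite

/-- Part LIFT: deformation of smooth points of quadrics over a complete field. -/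
def S_LIFT : Prop := ∀ (L : Type) [NontriviallyNormedField L] [CompleteSpace L] [CharZero L]
  (N : ℕ) (M₀ : Matrix (Fin N) (Fin N) L), M₀.IsSymm → ∀ y : Fin N → L, qv M₀ y = 0 →
    M₀.mulVec y ≠ 0 → ∀ U ∈ 𝓝 y, ∀ᶠ M in 𝓝 M₀, M.IsSymm → ∃ y' ∈ U, qv M y' = 0

/-- Part GLOB: a polynomial which vanishes at the rational isotropic vectors close to one point
vanishes at all of them. -/
def S_GLOB : Prop := ∀ (L : Type) [NontriviallyNormedField L] [CharZero L] (σ : ℚ →+* L),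
  DenseRange σ → ∀ (N : ℕ), 3 ≤ N → ∀ M : Matrix (Fin N) (Fin N) ℚ, M.IsSymm → M.det ≠ 0 →
    (∃ w : Fin N → ℚ, w ≠ 0 ∧ qv M w = 0) →
    ∀ y : Fin N → L, y ≠ 0 → qv (M.map σ) y = 0 → ∀ U ∈ 𝓝 y, ∀ h : MvPolynomial (Fin N) ℚ,
      (∀ v : Fin N → ℚ, qv M v = 0 → (fun i => σ (v i)) ∈ U → MvPolynomial.eval v h = 0) →
      ∀ v : Fin N → ℚ, qv M v = 0 → MvPolynomial.eval v h = 0

/-- Part CONE: the cylinder over the rational isotropic vectors in a direction is dense. -/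
def S_CONE : Prop := ∀ (N : ℕ), 3 ≤ N → ∀ M : Matrix (Fin N) (Fin N) ℚ, M.IsSymm → M.det ≠ 0 →
  (∃ w : Fin N → ℚ, w ≠ 0 ∧ qv M w = 0) → ∀ e : Fin N → ℚ, qv M e ≠ 0 →
    ∀ h : MvPolynomial (Fin N) ℚ,
      (∀ (v : Fin N → ℚ) (s : ℚ), qv M v = 0 → v ⬝ᵥ M.mulVec e ≠ 0 →
        MvPolynomial.eval (v + s • e) h = 0) → h = 0

/-- Part ALG: polynomials which vanish on infinitely many fibres. -/
def S_ALG : Prop := ∀ (N : ℕ), 3 ≤ N → ∀ A : Matrix (Fin N) (Fin N) (Polynomial ℚ), A.IsSymm →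
  ∀ f : MvPolynomial (Fin (N + 1)) ℚ,
    {t : ℚ | (Aat A t).det ≠ 0 ∧ (∃ w : Fin N → ℚ, w ≠ 0 ∧ qv (Aat A t) w = 0) ∧
      ∀ v : Fin N → ℚ, qv (Aat A t) v = 0 →
        MvPolynomial.eval (Fin.cons t v : Fin (N + 1) → ℚ) f = 0}.Infinite →
    ∀ (t : ℚ) (v : Fin N → ℚ), Aat A t ≠ 0 → qv (Aat A t) v = 0 →
      MvPolynomial.eval (Fin.cons t v : Fin (N + 1) → ℚ) f = 0

end Pool.Agent.R847.QM
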