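import Mathlib
import Pool.Agent.R847.QM.Stm

/-!
# Part GLOB of project QM (helper38): a polynomial which vanishes at the rational isotropic
vectors close to one point vanishes at all of them
-/

set_option autoImplicit false

namespace Pool.Agent.R847.QM.GL

open Matrix Topology Filter

variable {N : ℕ}

theorem symm_dot {R : Type} [CommRing R] {M : Matrix (Fin N) (Fin N) R} (hM : M.IsSymm)
    (x y : Fin N → R) : x ⬝ᵥ M *ᵥ y = y ⬝ᵥ M *ᵥ x := by
  rw [dotProduct_mulVec, dotProduct_comm, ← mulVec_transpose, hM]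

/-- the residual intersection of the line through `w` and `u` with the quadric -/
def pr {R : Type} [CommRing R] (M : Matrix (Fin N) (Fin N) R) (w u : Fin N → R) :
    Fin N → R :=
  (u ⬝ᵥ M *ᵥ u) • w - (2 * (w ⬝ᵥ M *ᵥ u)) • u

theorem pr_iso {R : Type} [CommRing R] {M : Matrix (Fin N) (Fin N) R} (hM : M.IsSymm)
    {w : Fin N → R} (hw : w ⬝ᵥ M *ᵥ w = 0) (u : Fin N → R) :
    pr M w u ⬝ᵥ M *ᵥ pr M w u = 0 := by
  have h1 := symm_dot hM u w
  simp only [pr, mulVec_sub, mulVec_smul, dotProduct_sub, sub_dotProduct, smul_dotProduct,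
    dotProduct_smul, smul_eq_mul, hw, h1]
  ring

theorem pr_dot {R : Type} [CommRing R] {M : Matrix (Fin N) (Fin N) R}
    (w u v : Fin N → R) : pr M w u ⬝ᵥ M *ᵥ v =
      (u ⬝ᵥ M *ᵥ u) * (w ⬝ᵥ M *ᵥ v) - 2 * (w ⬝ᵥ M *ᵥ u) * (u ⬝ᵥ M *ᵥ v) := by
  simp only [pr, sub_dotProduct, smul_dotProduct, smul_eq_mul]

theorem map_mv {R S : Type} [CommRing R] [CommRing S] (φ : R →+* S)
    (M : Matrix (Fin N) (Fin N) R) (w : Fin N → R) :
    (M.map φ) *ᵥ (fun i => φ (w i)) = fun i => φ ((M *ᵥ w) i) := by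
  funext i
  exact (RingHom.map_mulVec φ M w i).symm

theorem map_dp {R S : Type} [CommRing R] [CommRing S] (φ : R →+* S) (v w : Fin N → R) :
    (fun i => φ (v i)) ⬝ᵥ (fun i => φ (w i)) = φ (v ⬝ᵥ w) :=
  (RingHom.map_dotProduct φ v w).symm

theorem map_bil {R S : Type} [CommRing R] [CommRing S] (φ : R →+* S)
    (M : Matrix (Fin N) (Fin N) R) (v w : Fin N → R) :
    (fun i => φ (v i)) ⬝ᵥ (M.map φ) *ᵥ (fun i => φ (w i)) = φ (v ⬝ᵥ M *ᵥ w) := by
  rw [map_mv, map_dp]

theorem map_pr {R S : Type} [CommRing R] [CommRing S] (φ : R →+* S)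
    (M : Matrix (Fin N) (Fin N) R) (w u : Fin N → R) :
    pr (M.map φ) (fun i => φ (w i)) (fun i => φ (u i)) = fun i => φ (pr M w u i) := by
  funext i
  have h2 : φ 2 = 2 := map_ofNat φ 2
  simp only [pr, map_bil, Pi.sub_apply, Pi.smul_apply, smul_eq_mul, map_sub, map_mul, h2]

theorem map_symm {R S : Type} [CommRing R] [CommRing S] (φ : R →+* S)
    {M : Matrix (Fin N) (Fin N) R} (hM : M.IsSymm) : (M.map φ).IsSymm := by
  unfold Matrix.IsSymm
  rw [← Matrix.transpose_map, hM]

theorem pr_continuous {L : Type} [NontriviallyNormedField L] (M : Matrix (Fin N) (Fin N) L)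
    (w : Fin N → L) : Continuous (fun u => pr M w u) := by
  unfold pr
  have h1 : Continuous fun u : Fin N → L => M *ᵥ u := by
    refine continuous_pi fun i => ?_
    simp only [mulVec, dotProduct]
    fun_prop
  have h2 : Continuous fun u : Fin N → L => u ⬝ᵥ M *ᵥ u := by
    simp only [dotProduct]
    refine continuous_finsetSum _ fun i _ => (continuous_apply i).mul ((continuous_apply i).comp h1)
  have h3 : Continuous fun u : Fin N → L => w ⬝ᵥ M *ᵥ u := by
    simp only [dotProduct]
    refine continuous_finsetSum _ fun i _ => continuous_const.mul ((continuous_apply i).comp h1)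
  exact (h2.smul continuous_const).sub ((continuous_const.mul h3).smul continuous_id)

/-- polynomials vanishing at the rational numbers close to `0` in `L` -/
theorem poly_zero {L : Type} [NontriviallyNormedField L] (σ : ℚ →+* L) (hσ : DenseRange σ)
    (p : Polynomial ℚ) (V : Set L) (hV : V ∈ 𝓝 (0 : L))
    (h : ∀ t : ℚ, σ t ∈ V → p.eval t = 0) : p = 0 := by
  classical
  by_contra hp
  have hd : Dense (Set.range σ \ ↑(p.roots.toFinset.image σ)) :=
    Dense.sdiff_finset hσ (p.roots.toFinset.image σ)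
  obtain ⟨z, ⟨⟨t, rfl⟩, h2⟩, h3⟩ := hd.inter_nhds_nonempty hV
  apply h2
  rw [Finset.mem_coe, Finset.mem_image]
  refine ⟨t, ?_, rfl⟩
  rw [Multiset.mem_toFinset, Polynomial.mem_roots hp]
  exact h t h3

/-- a rational vector whose residual intersection is not orthogonal to a given vector -/
theorem exG {L : Type} [Field L] [CharZero L] (σ : ℚ →+* L) (hN : 3 ≤ N)
    (M : Matrix (Fin N) (Fin N) ℚ) (hM : M.IsSymm) (hdet : M.det ≠ 0) (w : Fin N → ℚ)
    (hw : w ≠ 0) (x : Fin N → L) (hx : x ≠ 0) :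
    ∃ u : Fin N → ℚ, (fun i => σ (pr M w u i)) ⬝ᵥ (M.map σ) *ᵥ x ≠ 0 := by
  classical
  by_contra hcon
  push Not at hcon
  set ML := M.map σ with hML
  have hMLs : ML.IsSymm := map_symm σ hM
  have hdetL : ML.det ≠ 0 := by
    have e : ML.det = σ M.det := by
      rw [hML]
      exact (RingHom.map_det σ M).symm
    rw [e]
    exact fun h0 => hdet ((map_eq_zero σ).1 h0)
  set a : Fin N → L := fun i => σ ((M *ᵥ w) i) with ha
  set b : Fin N → L := ML *ᵥ x with hb
  set β : L := (fun i => σ (w i)) ⬝ᵥ b with hβ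
  have ha0 : a ≠ 0 := by
    intro h0
    apply hw
    refine Matrix.eq_zero_of_mulVec_eq_zero hdet ?_
    funext i
    have := congrFun h0 i
    simp only [ha, Pi.zero_apply] at this
    exact (map_eq_zero σ).1 this
  have hb0 : b ≠ 0 := fun h0 => hx (Matrix.eq_zero_of_mulVec_eq_zero hdetL h0)
  -- the value at `u`
  have val : ∀ u : Fin N → ℚ, σ (u ⬝ᵥ M *ᵥ u) * β
      - 2 * (∑ i, a i * σ (u i)) * (∑ i, σ (u i) * b i) = 0 := by
    intro u
    have h1 := hcon u
    rw [← map_pr, pr_dot, map_bil, map_bil, symm_dot hM w u] at h1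
    have e1 : σ (u ⬝ᵥ M *ᵥ w) = ∑ i, a i * σ (u i) := by
      simp only [dotProduct, map_sum, map_mul, ha]
      exact Finset.sum_congr rfl fun i _ => mul_comm _ _
    rw [e1] at h1
    exact h1
  have e1 : ∀ i, ∑ k, a k * σ ((Pi.single i 1 : Fin N → ℚ) k) = a i := by
    intro i
    rw [Finset.sum_eq_single i]
    · simp
    · intro k _ hk
      simp [hk]
    · simp
  have e2 : ∀ i, ∑ k, σ ((Pi.single i 1 : Fin N → ℚ) k) * b k = b i := by
    intro i
    rw [Finset.sum_eq_single i]
    · simp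
    · intro k _ hk
      simp [hk]
    · simp
  have e3 : ∀ i j, (Pi.single i 1 : Fin N → ℚ) ⬝ᵥ M *ᵥ (Pi.single j 1) = M i j := by
    intro i j
    rw [single_dotProduct, one_mul, mulVec_single_one]
    rfl
  have d1 : ∀ i, σ (M i i) * β - 2 * a i * b i = 0 := by
    intro i
    have := val (Pi.single i 1)
    rw [e1, e2, e3] at this
    exact this
  have d2 : ∀ i j, σ (M i j) * β = a i * b j + a j * b i := by
    intro i j
    have h1 := val (Pi.single i 1 + Pi.single j 1)
    have h2 : (∑ k, a k * σ ((Pi.single i 1 + Pi.single j 1 : Fin N → ℚ) k)) = a i + a j := by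
      rw [← e1 i, ← e1 j, ← Finset.sum_add_distrib]
      exact Finset.sum_congr rfl fun k _ => by rw [Pi.add_apply, map_add, mul_add]
    have h3 : (∑ k, σ ((Pi.single i 1 + Pi.single j 1 : Fin N → ℚ) k) * b k) = b i + b j := by
      rw [← e2 i, ← e2 j, ← Finset.sum_add_distrib]
      exact Finset.sum_congr rfl fun k _ => by rw [Pi.add_apply, map_add, add_mul]
    have h4 : (Pi.single i 1 + Pi.single j 1 : Fin N → ℚ) ⬝ᵥ M *ᵥ (Pi.single i 1 + Pi.single j 1)
        = M i i + 2 * M i j + M j j := by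
      rw [mulVec_add, dotProduct_add, add_dotProduct, add_dotProduct, e3, e3, e3, e3,
        hM.apply i j]
      ring
    rw [h2, h3, h4] at h1
    simp only [map_add, map_mul, map_ofNat] at h1
    have h5 := d1 i
    have h6 := d1 j
    have h7 : (2 : L) * (σ (M i j) * β - (a i * b j + a j * b i)) = 0 := by
      linear_combination h1 - h5 - h6
    rcases mul_eq_zero.1 h7 with h8 | h8
    · exact absurd h8 two_ne_zero
    · exact sub_eq_zero.1 h8
  by_cases hβ0 : β = 0
  · obtain ⟨i, hi⟩ : ∃ i, a i ≠ 0 := by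
      by_contra hcc
      push Not at hcc
      exact ha0 (funext hcc)
    obtain ⟨j, hj⟩ : ∃ j, b j ≠ 0 := by
      by_contra hcc
      push Not at hcc
      exact hb0 (funext hcc)
    have h1 := d2 i i
    rw [hβ0, mul_zero] at h1
    have h2 : a i * b i = 0 := by
      have h3 : (2 : L) * (a i * b i) = 0 := by linear_combination -h1
      rcases mul_eq_zero.1 h3 with h4 | h4
      · exact absurd h4 two_ne_zero
      · exact h4
    have h3 : b i = 0 := (mul_eq_zero.1 h2).resolve_left hi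
    have h4 := d2 i j
    rw [hβ0, mul_zero, h3, mul_zero, add_zero] at h4
    exact (mul_ne_zero hi hj) h4.symm
  · -- a vector orthogonal to `a` and `b`
    let f : (Fin N → L) →ₗ[L] (Fin 2 → L) := Matrix.mulVecLin ![a, b]
    have hf : LinearMap.ker f ≠ ⊥ := by
      apply LinearMap.ker_ne_bot_of_finrank_lt
      simp only [Module.finrank_fin_fun]
      omega
    obtain ⟨u, hu, hu0⟩ := Submodule.exists_mem_ne_zero_of_ne_bot hf
    have hu1 : f u = 0 := hu
    have k1 : a ⬝ᵥ u = 0 := congrFun hu1 0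
    have k2 : b ⬝ᵥ u = 0 := congrFun hu1 1
    apply hu0
    refine Matrix.eq_zero_of_mulVec_eq_zero hdetL ?_
    funext i
    have h1 : (ML *ᵥ u) i * β = 0 := by
      have e : (ML *ᵥ u) i * β = ∑ j, (a i * b j + a j * b i) * u j := by
        simp only [mulVec, dotProduct, Finset.sum_mul]
        refine Finset.sum_congr rfl fun j _ => ?_
        rw [← d2 i j, hML, Matrix.map_apply]
        ring
      rw [e]
      have e' : ∑ j, (a i * b j + a j * b i) * u j = a i * (b ⬝ᵥ u) + b i * (a ⬝ᵥ u) := by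
        simp only [dotProduct, Finset.mul_sum, ← Finset.sum_add_distrib]
        exact Finset.sum_congr rfl fun j _ => by ring
      rw [e', k1, k2, mul_zero, mul_zero, add_zero]
    exact (mul_eq_zero.1 h1).resolve_right hβ0

/-- a rational isotropic vector which is not orthogonal to two given vectors -/
theorem exW {L : Type} [Field L] [CharZero L] (σ : ℚ →+* L) (hN : 3 ≤ N)
    (M : Matrix (Fin N) (Fin N) ℚ) (hM : M.IsSymm) (hdet : M.det ≠ 0) (w : Fin N → ℚ)
    (hw : w ≠ 0) (hq : w ⬝ᵥ M *ᵥ w = 0) (x y : Fin N → L) (hx : x ≠ 0) (hy : y ≠ 0) :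
    ∃ w' : Fin N → ℚ, w' ⬝ᵥ M *ᵥ w' = 0 ∧ (fun i => σ (w' i)) ⬝ᵥ (M.map σ) *ᵥ x ≠ 0 ∧
      (fun i => σ (w' i)) ⬝ᵥ (M.map σ) *ᵥ y ≠ 0 := by
  obtain ⟨u1, hu1⟩ := exG σ hN M hM hdet w hw x hx
  obtain ⟨u2, hu2⟩ := exG σ hN M hM hdet w hw y hy
  set ML := M.map σ with hML
  -- the polynomial on the line through `u1` and `u2`
  let uX : Fin N → Polynomial L := fun i =>
    Polynomial.C (σ (u1 i)) + Polynomial.X * Polynomial.C (σ (u2 i - u1 i))
  let P : (Fin N → L) → Polynomial L := fun z =>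
    pr (ML.map Polynomial.C) (fun i => Polynomial.C (σ (w i))) uX ⬝ᵥ
      (ML.map Polynomial.C) *ᵥ (fun i => Polynomial.C (z i))
  have hP : ∀ (z : Fin N → L) (t : ℚ), (P z).eval (σ t) =
      (fun i => σ (pr M w (fun i => u1 i + t * (u2 i - u1 i)) i)) ⬝ᵥ ML *ᵥ z := by
    intro z t
    have e0 : ∀ Q : Polynomial L, Q.eval (σ t) = Polynomial.evalRingHom (σ t) Q := fun _ => rfl
    have e1 : (ML.map Polynomial.C).map (Polynomial.evalRingHom (σ t)) = ML := by
      ext i j
      simp
    have e2 : (fun i => Polynomial.evalRingHom (σ t) (uX i)) =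
        fun i => σ (u1 i + t * (u2 i - u1 i)) := by
      funext i
      simp [uX]
    have e3 : ∀ z : Fin N → L,
        (fun i => Polynomial.evalRingHom (σ t) (Polynomial.C (z i))) = z := by
      intro z
      funext i
      simp
    rw [e0]
    simp only [P]
    rw [← map_bil, e1, e3, ← map_pr, e1, e3, e2, ← map_pr]
  have h1 : P x ≠ 0 := by
    intro h0
    apply hu1
    have := hP x 0
    rw [h0, Polynomial.eval_zero] at this
    simp only [zero_mul, add_zero] at this
    exact this.symm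
  have h2 : P y ≠ 0 := by
    intro h0
    apply hu2
    have := hP y 1
    rw [h0, Polynomial.eval_zero] at this
    simp only [one_mul, add_sub_cancel] at this
    exact this.symm
  have h3 : ∃ t : ℚ, (P x * P y).eval (σ t) ≠ 0 := by
    by_contra hcon
    push Not at hcon
    refine (mul_ne_zero h1 h2) (Polynomial.eq_zero_of_infinite_isRoot _ ?_)
    refine Set.Infinite.mono ?_ (Set.infinite_range_of_injective σ.injective)
    rintro _ ⟨t, rfl⟩
    exact hcon t
  obtain ⟨t, ht⟩ := h3
  rw [Polynomial.eval_mul, hP, hP] at ht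
  exact ⟨_, pr_iso hM hq _, left_ne_zero_of_mul ht, right_ne_zero_of_mul ht⟩

/-- the parametrization from a rational isotropic vector not orthogonal to `y` -/
theorem param {L : Type} [NontriviallyNormedField L] [CharZero L] (σ : ℚ →+* L)
    (hσ : DenseRange σ) (M : Matrix (Fin N) (Fin N) ℚ) (hM : M.IsSymm)
    (w : Fin N → ℚ) (hq : w ⬝ᵥ M *ᵥ w = 0) (y : Fin N → L)
    (hy : y ⬝ᵥ (M.map σ) *ᵥ y = 0) (hwy : (fun i => σ (w i)) ⬝ᵥ (M.map σ) *ᵥ y ≠ 0)
    (U : Set (Fin N → L)) (hU : U ∈ 𝓝 y) (h : MvPolynomial (Fin N) ℚ)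
    (hh : ∀ v : Fin N → ℚ, v ⬝ᵥ M *ᵥ v = 0 → (fun i => σ (v i)) ∈ U →
      MvPolynomial.eval v h = 0) (c : ℚ) (u : Fin N → ℚ) :
    MvPolynomial.eval (c • pr M w u) h = 0 := by
  set ML := M.map σ with hML
  set wL : Fin N → L := fun i => σ (w i) with hwL
  let Φ : L × (Fin N → L) → (Fin N → L) := fun p => p.1 • pr ML wL p.2
  have hΦ : Continuous Φ := continuous_fst.smul ((pr_continuous ML wL).comp continuous_snd)
  set c0 : L := -(2 * (wL ⬝ᵥ ML *ᵥ y))⁻¹ with hc0
  have hΦy : Φ (c0, y) = y := by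
    simp only [Φ, pr, hy, zero_smul, zero_sub, smul_neg, smul_smul, hc0]
    rw [neg_mul, neg_smul, neg_neg, inv_mul_cancel₀ (mul_ne_zero two_ne_zero hwy), one_smul]
  have hS : Φ ⁻¹' (interior U) ∈ 𝓝 (c0, y) := by
    refine hΦ.continuousAt.preimage_mem_nhds ?_
    rw [hΦy]
    exact interior_mem_nhds.2 hU
  have hSo : IsOpen (Φ ⁻¹' (interior U)) := isOpen_interior.preimage hΦ
  have hdense : DenseRange (Prod.map σ (Pi.map (fun _ : Fin N => (σ : ℚ → L)))) :=
    hσ.prodMap (DenseRange.piMap fun _ => hσ)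
  obtain ⟨_, ⟨⟨cz, uz⟩, rfl⟩, hz⟩ := Dense.inter_nhds_nonempty hdense hS
  let γ : L → L × (Fin N → L) := fun s =>
    (σ cz + s * σ (c - cz), fun i => σ (uz i) + s * σ (u i - uz i))
  have hγ : Continuous γ := by
    refine Continuous.prodMk (by fun_prop) (continuous_pi fun i => by fun_prop)
  have hγ0 : γ 0 ∈ Φ ⁻¹' (interior U) := by
    have e : γ 0 = Prod.map σ (Pi.map (fun _ : Fin N => (σ : ℚ → L))) (cz, uz) := by
      simp only [γ, zero_mul, add_zero]
      rfl
    rw [e]
    exact hz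
  have hV : γ ⁻¹' (Φ ⁻¹' (interior U)) ∈ 𝓝 (0 : L) :=
    hγ.continuousAt.preimage_mem_nhds (hSo.mem_nhds hγ0)
  -- the polynomial curve
  let cX : Polynomial ℚ := Polynomial.C cz + Polynomial.X * Polynomial.C (c - cz)
  let uX : Fin N → Polynomial ℚ := fun i =>
    Polynomial.C (uz i) + Polynomial.X * Polynomial.C (u i - uz i)
  let cv : Fin N → Polynomial ℚ :=
    cX • pr (M.map Polynomial.C) (fun i => Polynomial.C (w i)) uX
  let p : Polynomial ℚ := MvPolynomial.aeval cv h
  have hcv : ∀ t : ℚ, (fun i => (cv i).eval t) =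
      (cz + t * (c - cz)) • pr M w (fun i => uz i + t * (u i - uz i)) := by
    intro t
    have e1 : (M.map Polynomial.C).map (Polynomial.evalRingHom t) = M := by
      ext i j
      simp
    have e2 : (fun i => Polynomial.evalRingHom t (uX i)) =
        fun i => uz i + t * (u i - uz i) := by
      funext i
      simp [uX]
    have e3 : (fun i => Polynomial.evalRingHom t (Polynomial.C (w i))) = w := by
      funext i
      simp
    have e4 := map_pr (Polynomial.evalRingHom t) (M.map Polynomial.C)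
      (fun i => Polynomial.C (w i)) uX
    rw [e1, e2, e3] at e4
    rw [e4]
    funext i
    simp [cv, cX]
  have hp : ∀ t : ℚ, p.eval t = MvPolynomial.eval (fun i => (cv i).eval t) h := by
    intro t
    have e : (Polynomial.evalRingHom t) (MvPolynomial.eval₂ (algebraMap ℚ (Polynomial ℚ)) cv h) =
        MvPolynomial.eval₂ ((Polynomial.evalRingHom t).comp (algebraMap ℚ (Polynomial ℚ)))
          (fun i => (Polynomial.evalRingHom t) (cv i)) h :=
      MvPolynomial.eval₂_comp_left (Polynomial.evalRingHom t) (algebraMap ℚ (Polynomial ℚ)) cv h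
    have e' : (Polynomial.evalRingHom t).comp (algebraMap ℚ (Polynomial ℚ)) = RingHom.id ℚ :=
      RingHom.ext_rat _ _
    rw [e'] at e
    exact e
  have hp0 : p = 0 := by
    refine poly_zero σ hσ p _ hV fun t ht => ?_
    rw [hp, hcv]
    refine hh _ ?_ ?_
    · rw [mulVec_smul, dotProduct_smul, smul_dotProduct, pr_iso hM hq]
      simp
    · apply interior_subset
      have e : (fun i => σ (((cz + t * (c - cz)) •
          pr M w (fun i => uz i + t * (u i - uz i))) i)) = Φ (γ (σ t)) := by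
        have e1 := map_pr σ M w (fun i => uz i + t * (u i - uz i))
        simp only [Φ, γ]
        have e2 : (fun i => σ (uz i) + σ t * σ (u i - uz i)) =
            fun i => σ (uz i + t * (u i - uz i)) := by
          funext i
          rw [map_add, map_mul]
        rw [e2, hML, hwL, e1]
        funext i
        simp only [Pi.smul_apply, smul_eq_mul, map_mul, map_add]
      rw [e]
      exact ht
  have h1 := hp 1
  rw [hp0, Polynomial.eval_zero, hcv] at h1
  simp only [one_mul, add_sub_cancel] at h1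
  exact h1.symm

end Pool.Agent.R847.QM.GL

namespace Pool.Agent.R847.QM

open Matrix Topology

/-- **Part GLOB.** -/
theorem glob_ : S_GLOB := by
  intro L _ _ σ hσ N hN M hM hdet ⟨w, hw, hq⟩ y hy hqy U hU h hh v hv
  have hq' : w ⬝ᵥ M *ᵥ w = 0 := hq
  have hv' : v ⬝ᵥ M *ᵥ v = 0 := hv
  by_cases hv0 : v = 0
  · obtain ⟨w', h1, h2, -⟩ := GL.exW σ hN M hM hdet w hw hq' y y hy hy
    have h3 := GL.param σ hσ M hM w' h1 y hqy h2 U hU h hh 0 0
    rw [zero_smul] at h3
    rw [hv0]
    exact h3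
  · have hvL : (fun i => σ (v i)) ≠ 0 := by
      intro h0
      apply hv0
      funext i
      have := congrFun h0 i
      simp only [Pi.zero_apply] at this
      exact (map_eq_zero σ).1 this
    obtain ⟨w', h1, h2, h3⟩ := GL.exW σ hN M hM hdet w hw hq' y (fun i => σ (v i)) hy hvL
    have h4 : w' ⬝ᵥ M *ᵥ v ≠ 0 := by
      intro h0
      apply h3
      rw [GL.map_bil, h0, map_zero]
    have h5 := GL.param σ hσ M hM w' h1 y hqy h2 U hU h hh (-(2 * (w' ⬝ᵥ M *ᵥ v))⁻¹) v
    have e : (-(2 * (w' ⬝ᵥ M *ᵥ v))⁻¹) • GL.pr M w' v = v := by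
      simp only [GL.pr, hv', zero_smul, zero_sub, smul_neg, smul_smul]
      rw [neg_mul, neg_smul, neg_neg, inv_mul_cancel₀ (mul_ne_zero two_ne_zero h4), one_smul]
    rw [e] at h5
    exact h5

end Pool.Agent.R847.QM
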