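import Pool.Agent.R847.QM.Stm

set_option autoImplicit false

namespace Pool.Agent.R847.QM

open Matrix Topology Filter

namespace Lift

theorem expand {L : Type} [Field L] {N : ℕ} (M : Matrix (Fin N) (Fin N) L) (hM : M.IsSymm)
    (y : Fin N → L) (i : Fin N) (s : L) :
    qv M (y + s • Pi.single i 1)
      = qv M y + 2 * s * (M.mulVec y) i + s ^ 2 * M i i := by
  unfold qv
  have h1 : (Pi.single i (1 : L)) ⬝ᵥ M.mulVec y = (M.mulVec y) i := by simp
  have h2 : y ⬝ᵥ M.mulVec (Pi.single i 1) = (M.mulVec y) i := by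
    rw [dotProduct_mulVec]
    have h3 : y ᵥ* M = M.mulVec y := by
      conv_lhs => rw [← hM.eq]
      exact vecMul_transpose _ _
    rw [h3]
    simp
  have h4 : (Pi.single i (1 : L)) ⬝ᵥ M.mulVec (Pi.single i 1) = M i i := by
    simp
  rw [mulVec_add, mulVec_smul, add_dotProduct, dotProduct_add, dotProduct_add, smul_dotProduct,
    smul_dotProduct, dotProduct_smul, dotProduct_smul, h1, h2, h4]
  simp only [smul_eq_mul]
  ring

end Lift

theorem lift_ : S_LIFT := by
  intro L _ _ _ N M₀ _ y hy hne U hU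
  obtain ⟨i, hi⟩ : ∃ i, (M₀.mulVec y) i ≠ 0 := by
    by_contra hcon
    push Not at hcon
    exact hne (funext hcon)
  set b0 := (M₀.mulVec y) i with hb0
  -- continuity
  have hcent : ∀ j k, Continuous fun M : Matrix (Fin N) (Fin N) L => M j k := fun j k =>
    (continuous_apply k).comp (continuous_apply j)
  have hcb : ∀ j, Continuous fun M : Matrix (Fin N) (Fin N) L => (M.mulVec y) j := by
    intro j
    unfold mulVec dotProduct
    exact continuous_finsetSum _ (fun k _ => (hcent j k).mul continuous_const)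
  have hcq : Continuous fun M : Matrix (Fin N) (Fin N) L => qv M y := by
    unfold qv dotProduct
    exact continuous_finsetSum _ (fun k _ => continuous_const.mul (hcb k))
  have h20 : (2 : L) * b0 ≠ 0 := mul_ne_zero two_ne_zero hi
  have hbb : b0 + b0 ≠ 0 := by rw [← two_mul]; exact h20
  -- the new point
  let F : L × Matrix (Fin N) (Fin N) L → (Fin N → L) := fun p =>
    y + (-(qv p.2 y) / ((p.2.mulVec y) i + p.1)) • Pi.single i 1
  have hS : ContinuousAt (fun p : L × Matrix (Fin N) (Fin N) L =>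
      -(qv p.2 y) / ((p.2.mulVec y) i + p.1)) (b0, M₀) := by
    apply ContinuousAt.div
    · exact ((hcq.comp continuous_snd).neg).continuousAt
    · exact (((hcb i).comp continuous_snd).add continuous_fst).continuousAt
    · exact hbb
  have hF : ContinuousAt F (b0, M₀) :=
    (continuousAt_const : ContinuousAt (fun _ => y) (b0, M₀)).add
      (hS.smul (continuousAt_const : ContinuousAt (fun _ => (Pi.single i 1 : Fin N → L)) (b0, M₀)))
  have hF0 : F (b0, M₀) = y := by
    change y + (-(qv M₀ y) / ((M₀.mulVec y) i + b0)) • Pi.single i 1 = y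
    rw [hy, neg_zero, zero_div, zero_smul, add_zero]
  have ev1 : ∀ᶠ p in 𝓝 (b0, M₀), F p ∈ U := hF (by rw [hF0]; exact hU)
  have ev2 : ∀ᶠ p : L × Matrix (Fin N) (Fin N) L in 𝓝 (b0, M₀), (p.2.mulVec y) i + p.1 ≠ 0 := by
    have hc : ContinuousAt (fun p : L × Matrix (Fin N) (Fin N) L => (p.2.mulVec y) i + p.1)
        (b0, M₀) := (((hcb i).comp continuous_snd).add continuous_fst).continuousAt
    exact hc.eventually_ne hbb
  have ev3 := ev1.and ev2
  rw [nhds_prod_eq, eventually_prod_iff] at ev3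
  obtain ⟨p1, hp1, p2, hp2, hp⟩ := ev3
  -- square roots
  have hsq : HasStrictDerivAt (fun r : L => r ^ 2) (2 * b0) b0 := by
    have := hasStrictDerivAt_pow 2 b0
    simpa using this
  have himg : (fun r : L => r ^ 2) '' {r | p1 r} ∈ 𝓝 (b0 ^ 2) := by
    have h1 := hsq.map_nhds_eq h20
    rw [← h1]
    exact image_mem_map hp1
  have hcd : Tendsto (fun M : Matrix (Fin N) (Fin N) L => (M.mulVec y) i ^ 2 - M i i * qv M y)
      (𝓝 M₀) (𝓝 (b0 ^ 2)) := by
    have h1 : Continuous (fun M : Matrix (Fin N) (Fin N) L =>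
        (M.mulVec y) i ^ 2 - M i i * qv M y) := ((hcb i).pow 2).sub ((hcent i i).mul hcq)
    have h2 := h1.tendsto M₀
    rw [hy, mul_zero, sub_zero] at h2
    exact h2
  filter_upwards [hcd himg, hp2] with M hM1 hM2 hMs
  obtain ⟨r, hr, hr2⟩ := hM1
  have hr' : p1 r := hr
  have hr2' : r ^ 2 = (M.mulVec y) i ^ 2 - M i i * qv M y := hr2
  obtain ⟨h1, h2⟩ := hp hr' hM2
  have h2' : (M.mulVec y) i + r ≠ 0 := h2
  refine ⟨F (r, M), h1, ?_⟩
  change qv M (y + (-(qv M y) / ((M.mulVec y) i + r)) • Pi.single i 1) = 0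
  rw [Lift.expand M hMs]
  field_simp
  linear_combination (qv M y) * hr2'

end Pool.Agent.R847.QM
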