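import Pool.Agent.R847.QM.Stm

/-!
# Project QM, part NEAR: rational numbers close to `t₀` in `L` and in `ℝ`
-/

set_option autoImplicit false

namespace Pool.Agent.R847.QM

open Filter Topology

/-- `z ^ k / (1 + (z ^ k) ^ 2)` tends to `0` if `‖z‖ < 1` -/
theorem near_aux {F : Type} [NormedField F] {z : F} (hz : ‖z‖ < 1) :
    Tendsto (fun k : ℕ => z ^ k / (1 + (z ^ k) ^ 2)) atTop (𝓝 0) := by
  have h1 : Tendsto (fun k : ℕ => z ^ k) atTop (𝓝 0) :=
    tendsto_pow_atTop_nhds_zero_of_norm_lt_one hz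
  have h2 : Tendsto (fun k : ℕ => 1 + (z ^ k) ^ 2) atTop (𝓝 (1 + 0 ^ 2)) :=
    tendsto_const_nhds.add (h1.pow 2)
  have h3 := h1.div h2 (by norm_num)
  rw [show (0 : F) / (1 + 0 ^ 2) = 0 by simp] at h3
  exact h3

theorem near_ : S_NEAR := by
  intro L _ σ hσ t₀ U V hU hV
  -- a rational number small in `L`
  obtain ⟨x, hx0, hx1⟩ : ∃ x : ℚ, 0 < ‖σ x‖ ∧ ‖σ x‖ < 1 := by
    obtain ⟨z, hz0, hz1⟩ := NormedField.exists_norm_lt_one L
    have hopen : IsOpen {w : L | 0 < ‖w‖ ∧ ‖w‖ < 1} :=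
      (isOpen_lt continuous_const continuous_norm).inter
        (isOpen_lt continuous_norm continuous_const)
    obtain ⟨x, hx⟩ := hσ.exists_mem_open hopen ⟨z, hz0, hz1⟩
    exact ⟨x, hx⟩
  have hxne : x ≠ 0 := by
    rintro rfl
    simp at hx0
  have hx1' : |(x : ℝ)| ≠ 1 := by
    intro h
    have h2 : |x| = 1 := by exact_mod_cast h
    rcases (abs_eq (by norm_num : (0 : ℚ) ≤ 1)).1 h2 with h3 | h3
    · rw [h3] at hx1; simp at hx1
    · rw [h3] at hx1; simp at hx1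
  set y : ℕ → ℚ := fun k => x ^ k / (1 + (x ^ k) ^ 2) with hy
  have hyne : ∀ k, y k ≠ 0 := fun k =>
    div_ne_zero (pow_ne_zero _ hxne) (by positivity)
  have hL : Tendsto (fun k => σ (y k)) atTop (𝓝 0) := by
    have h := near_aux hx1
    refine h.congr fun k => ?_
    show σ x ^ k / (1 + (σ x ^ k) ^ 2) = σ (x ^ k / (1 + (x ^ k) ^ 2))
    simp only [map_div₀, map_add, map_one, map_pow]
  have hR : Tendsto (fun k => ((y k : ℚ) : ℝ)) atTop (𝓝 0) := by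
    rcases lt_or_gt_of_ne hx1' with h | h
    · have h2 := near_aux (z := (x : ℝ)) h
      refine h2.congr fun k => ?_
      simp [hy]
    · have h3 : ‖((x : ℝ))⁻¹‖ < 1 := by
        rw [norm_inv, Real.norm_eq_abs]
        exact inv_lt_one_of_one_lt₀ h
      have h2 := near_aux h3
      refine h2.congr fun k => ?_
      have hx' : (x : ℝ) ^ k ≠ 0 := pow_ne_zero _ (by exact_mod_cast hxne)
      have h4 : (1 : ℝ) + ((x : ℝ) ^ k) ^ 2 ≠ 0 := by positivity
      have h5 : (1 : ℝ) + (((x : ℝ) ^ k)⁻¹) ^ 2 ≠ 0 := by positivity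
      show ((x : ℝ)⁻¹) ^ k / (1 + (((x : ℝ)⁻¹) ^ k) ^ 2) = ((x ^ k / (1 + (x ^ k) ^ 2) : ℚ) : ℝ)
      rw [inv_pow]
      push_cast
      rw [div_eq_div_iff h5 h4]
      field_simp
      ring
  intro hfin
  -- remove the finitely many other values
  set T : Set ℚ := {t : ℚ | σ t ∈ U ∧ ((t : ℚ) : ℝ) ∈ V} with hT
  have hfin2 : ((fun t : ℚ => (t : ℝ)) '' (T \ {t₀})).Finite := (hfin.subset Set.sdiff_subset).image _
  have hV2 : ((fun t : ℚ => (t : ℝ)) '' (T \ {t₀}))ᶜ ∈ 𝓝 ((t₀ : ℚ) : ℝ) := by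
    refine hfin2.isClosed.isOpen_compl.mem_nhds ?_
    rintro ⟨t, ht, ht2⟩
    have ht3 : t = t₀ := Rat.cast_injective (α := ℝ) ht2
    exact ht.2 ht3
  have hL2 : Tendsto (fun k => σ (t₀ + y k)) atTop (𝓝 (σ t₀)) := by
    have h := (tendsto_const_nhds (x := σ t₀)).add hL
    rw [add_zero] at h
    exact h.congr fun k => by rw [map_add]
  have hR2 : Tendsto (fun k => (((t₀ + y k : ℚ)) : ℝ)) atTop (𝓝 ((t₀ : ℚ) : ℝ)) := by
    have h := (tendsto_const_nhds (x := ((t₀ : ℚ) : ℝ))).add hR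
    rw [add_zero] at h
    exact h.congr fun k => by push_cast; ring
  obtain ⟨k, hk1, hk2, hk3⟩ :=
    ((hL2.eventually hU).and ((hR2.eventually hV).and (hR2.eventually hV2))).exists
  refine hk3 ⟨t₀ + y k, ⟨⟨hk1, hk2⟩, ?_⟩, rfl⟩
  intro h
  have h2 : t₀ + y k = t₀ := h
  exact hyne k (by linarith)

end Pool.Agent.R847.QM
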